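import Mathlib

/-!
Definitions used by the statement on the homotopy type of the partitions of `[2k+1]`
without blocks of size `k`.
-/

namespace Pool.Agent.Lib.MP_53e7c4_co

open scoped ContinuousMap

/-- The proper part of `Π_{n,≠k}`: the set partitions of an `n`-element set (written as
equivalence relations, ordered by refinement) which are neither the bottom partition (all
blocks are singletons) nor the top partition (one block), and which have no block with exactly
`k` elements. The block of `x` in the partition `r` is `{y | r x y}`. -/
abbrev PartNe (n k : ℕ) : Type :=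
  {r : Setoid (Fin n) // r ≠ ⊥ ∧ r ≠ ⊤ ∧ ∀ x, {y | r x y}.ncard ≠ k}

instance instFiniteSetoid (n : ℕ) : Finite (Setoid (Fin n)) :=
  Finite.of_injective (fun r : Setoid (Fin n) => (fun x y => r x y)) fun _ _ h =>
    Setoid.ext fun x y => iff_of_eq (congrFun (congrFun h x) y)

noncomputable instance instFintypePartNe (n k : ℕ) : Fintype (PartNe n k) := Fintype.ofFinite _

/-- The geometric realization of the order complex of a finite poset `P`: the points `x` of the
standard simplex with vertex set `P` whose support is a chain. The topology is the subspace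
topology from `P → ℝ`. -/
def OrderComplex (P : Type) [PartialOrder P] [Fintype P] : Type :=
  {x : P → ℝ // (∀ p, 0 ≤ x p) ∧ ∑ p, x p = 1 ∧
    ∀ p q, x p ≠ 0 → x q ≠ 0 → p ≤ q ∨ q ≤ p}

instance (P : Type) [PartialOrder P] [Fintype P] : TopologicalSpace (OrderComplex P) :=
  inferInstanceAs (TopologicalSpace {x : P → ℝ // _})

/-- The unit sphere `S^d` in `ℝ^(d+1)`. -/
abbrev Sph (d : ℕ) : Type := Metric.sphere (0 : EuclideanSpace ℝ (Fin (d + 1))) 1

/-- The base point of `S^d`. -/
noncomputable def basePt (d : ℕ) : Sph d := ⟨EuclideanSpace.single 0 1, by simp⟩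

/-- The wedge of `N` spheres `S^d`: the disjoint union of `N` copies of `S^d` with the `N` base
points identified to one point. (It is used for `N ≥ 1`.) -/
def SphereWedge (N d : ℕ) : Type :=
  Quot fun a b : (_ : Fin N) × Sph d => a.2 = basePt d ∧ b.2 = basePt d

instance (N d : ℕ) : TopologicalSpace (SphereWedge N d) :=
  inferInstanceAs (TopologicalSpace (Quot _))

end Pool.Agent.Lib.MP_53e7c4_co
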