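import Mathlib
import Pool.Agent.Lib.MP_53e7c4_co.Defs

/-!
Geometric realizations of finite families of finite sets, used in the topological part.
-/

namespace Pool.Agent.Lib.MP_53e7c4_co

open scoped ContinuousMap

variable {V : Type} [Fintype V] [DecidableEq V]

/-- The support of a point. -/
noncomputable def supp (x : V → ℝ) : Finset V := Finset.univ.filter fun v => x v ≠ 0

/-- The geometric realization of a family `K` of finite sets (a simplicial complex if `K` is closed
under subsets): points of the standard simplex with support in `K`. -/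
def geo (K : Set (Finset V)) : Set (V → ℝ) :=
  {x | (∀ v, 0 ≤ x v) ∧ ∑ v, x v = 1 ∧ supp x ∈ K}

theorem mem_supp {x : V → ℝ} {v : V} : v ∈ supp x ↔ x v ≠ 0 := by simp [supp]

/-- Closed under taking subsets. -/
def DownClosed (K : Set (Finset V)) : Prop := ∀ s ∈ K, ∀ t, t ⊆ s → t ∈ K

end Pool.Agent.Lib.MP_53e7c4_co
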