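import Mathlib
import Pool.Agent.Lib.MP_53e7c4_co.Geo

/-!
Families of finite sets built by elementary expansions and by attaching sets of a fixed size.
-/

namespace Pool.Agent.Lib.MP_53e7c4_co

variable {V : Type} [DecidableEq V]

/-- `Built m N K`: the family `K` (a simplicial complex, including the empty face) is obtained from
the void family by elementary expansions and `N` attachments of faces with exactly `m` elements. -/
inductive Built (m : ℕ) : ℕ → Set (Finset V) → Prop
  | void : Built m 0 ∅
  | expand {N : ℕ} {K : Set (Finset V)} (τ : Finset V) (v : V) (hv : v ∉ τ) (hτ : τ ∉ K)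
      (hf : ∀ t, t ⊂ insert v τ → t ≠ τ → t ∈ K) (hK : Built m N K) :
      Built m N (K ∪ {τ, insert v τ})
  | attach {N : ℕ} {K : Set (Finset V)} (τ : Finset V) (hc : τ.card = m) (hτ : τ ∉ K)
      (hf : ∀ t, t ⊂ τ → t ∈ K) (hK : Built m N K) : Built m (N + 1) (K ∪ {τ})

theorem Built.downClosed {m N : ℕ} {K : Set (Finset V)} (h : Built m N K) : DownClosed K := by
  induction h with
  | void => intro s hs; exact absurd hs (by simp)
  | expand τ v hv hτ hf hK ih =>
    intro s hs t hts
    rcases hs with hs | hs | hs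
    · exact Or.inl (ih s hs t hts)
    · subst hs
      by_cases h : t = s
      · exact Or.inr (Or.inl h)
      · refine Or.inl (hf t ?_ h)
        exact Finset.ssubset_of_ssubset_of_subset (Finset.ssubset_iff_subset_ne.2 ⟨hts, h⟩)
          (Finset.subset_insert _ _)
    · rw [Set.mem_singleton_iff] at hs
      subst hs
      by_cases h : t = insert v τ
      · exact Or.inr (Or.inr h)
      by_cases h' : t = τ
      · exact Or.inr (Or.inl h')
      exact Or.inl (hf t (Finset.ssubset_iff_subset_ne.2 ⟨hts, h⟩) h')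
  | attach τ hc hτ hf hK ih =>
    intro s hs t hts
    rcases hs with hs | hs
    · exact Or.inl (ih s hs t hts)
    · rw [Set.mem_singleton_iff] at hs
      subst hs
      by_cases h : t = s
      · exact Or.inr h
      · exact Or.inl (hf t (Finset.ssubset_iff_subset_ne.2 ⟨hts, h⟩))

/-- If only expansions are used the parameter `m` does not matter. -/
theorem Built.change {m m' N : ℕ} {K : Set (Finset V)} (h : Built m N K) (hN : N = 0) :
    Built m' 0 K := by
  induction h with
  | void => exact Built.void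
  | expand τ v hv hτ hf hK ih => exact Built.expand τ v hv hτ hf (ih hN)
  | attach τ hc hτ hf hK ih => omega

/-- Cast. -/
theorem Built.cast {m m' N N' : ℕ} {K K' : Set (Finset V)} (h : Built m N K) (hm : m = m')
    (hN : N = N') (hK : K = K') : Built m' N' K' := by
  subst hm hN hK; exact h

theorem union_split {ρ : Finset V} {τ t : Finset V} (ht : t ⊆ τ ∪ ρ) :
    t = (t ∩ τ) ∪ (t ∩ ρ) := by
  ext x
  simp only [Finset.mem_union, Finset.mem_inter]
  constructor
  · intro hx
    rcases Finset.mem_union.1 (ht hx) with h | h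
    · exact Or.inl ⟨hx, h⟩
    · exact Or.inr ⟨hx, h⟩
  · rintro (h | h) <;> exact h.1

theorem union_cancel {τ s t : Finset V} (hs : Disjoint τ s) (ht : Disjoint τ t)
    (h : τ ∪ s = τ ∪ t) : s = t := by
  ext x
  constructor
  · intro hx
    have : x ∈ τ ∪ t := h ▸ Finset.mem_union_right _ hx
    rcases Finset.mem_union.1 this with h' | h'
    · exact absurd hx (Finset.disjoint_left.1 hs h')
    · exact h'
  · intro hx
    have : x ∈ τ ∪ s := h ▸ Finset.mem_union_right _ hx
    rcases Finset.mem_union.1 this with h' | h'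
    · exact absurd hx (Finset.disjoint_left.1 ht h')
    · exact h'

/-- Attaching a cone-like piece `τ * L` along `∂τ * L`. -/
theorem Built.cone {m n b M : ℕ} {B Lf L : Set (Finset V)} {τ : Finset V} (hB : Built m n B)
    (hLf : DownClosed Lf) (hdisj : ∀ t ∈ Lf, Disjoint τ t)
    (hbase : ∀ τ', τ' ⊂ τ → ∀ t ∈ Lf, τ' ∪ t ∈ B) (hnew : ∀ t ∈ Lf, τ ∪ t ∉ B)
    (hL : Built b M L) (hcase : M = 0 ∨ m = τ.card + b) (hsub : L ⊆ Lf) :
    Built m (n + M) (B ∪ (fun t => τ ∪ t) '' L) := by
  induction hL with
  | void => simpa using hB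
  | @expand M L ρ v hv hρ hf hL ih =>
    have hsub' : L ⊆ Lf := fun t ht => hsub (Or.inl ht)
    have hρLf : ρ ∈ Lf := hsub (Or.inr (Or.inl rfl))
    have hvρLf : insert v ρ ∈ Lf := hsub (Or.inr (Or.inr rfl))
    have hd1 : Disjoint τ ρ := hdisj _ hρLf
    have hd2 : Disjoint τ (insert v ρ) := hdisj _ hvρLf
    have hvτ : v ∉ τ := Finset.disjoint_right.1 hd2 (Finset.mem_insert_self _ _)
    have key := Built.expand (τ ∪ ρ) v (by simp [hv, hvτ]) (K := B ∪ (fun t => τ ∪ t) '' L) ?_ ?_
      (ih hcase hsub')
    · refine key.cast rfl rfl ?_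
      rw [Set.image_union, Set.image_pair, ← Set.union_assoc]
      simp [Finset.union_insert]
    · rintro (h | ⟨t, ht, h⟩)
      · exact hnew ρ hρLf h
      · have : t = ρ := union_cancel (hdisj _ (hsub' ht)) hd1 h
        exact hρ (this ▸ ht)
    · intro t ht hne
      have ht' : t ⊆ τ ∪ insert v ρ := by
        rw [Finset.union_insert]; exact ht.1
      have hsplit := union_split ht'
      by_cases h1 : t ∩ τ = τ
      · right
        refine ⟨t ∩ insert v ρ, ?_, by rw [h1] at hsplit; exact hsplit.symm⟩
        refine hf _ ?_ ?_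
        · refine Finset.ssubset_iff_subset_ne.2 ⟨Finset.inter_subset_right, fun h => ?_⟩
          rw [h1, h] at hsplit
          apply ht.2
          rw [hsplit, Finset.union_insert]
        · intro h
          rw [h1, h] at hsplit
          exact hne hsplit
      · left
        rw [hsplit]
        refine hbase _ (Finset.ssubset_iff_subset_ne.2 ⟨Finset.inter_subset_right, h1⟩) _ ?_
        exact hLf _ hvρLf _ Finset.inter_subset_right
  | @attach M L ρ hc hρ hf hL ih =>
    have hm : m = τ.card + b := by
      rcases hcase with h | h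
      · omega
      · exact h
    have hsub' : L ⊆ Lf := fun t ht => hsub (Or.inl ht)
    have hρLf : ρ ∈ Lf := hsub (Or.inr rfl)
    have hd1 : Disjoint τ ρ := hdisj _ hρLf
    have key := Built.attach (τ ∪ ρ) (m := m) (K := B ∪ (fun t => τ ∪ t) '' L)
      (by rw [Finset.card_union_of_disjoint hd1, hc, hm]) ?_ ?_ (ih (Or.inr hm) hsub')
    · refine key.cast rfl rfl ?_
      rw [Set.image_union, Set.image_singleton, ← Set.union_assoc]
    · rintro (h | ⟨t, ht, h⟩)
      · exact hnew ρ hρLf h
      · have : t = ρ := union_cancel (hdisj _ (hsub' ht)) hd1 h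
        exact hρ (this ▸ ht)
    · intro t ht
      have hsplit := union_split ht.1
      by_cases h1 : t ∩ τ = τ
      · right
        refine ⟨t ∩ ρ, ?_, by rw [h1] at hsplit; exact hsplit.symm⟩
        refine hf _ ?_
        refine Finset.ssubset_iff_subset_ne.2 ⟨Finset.inter_subset_right, fun h => ?_⟩
        rw [h1, h] at hsplit
        exact ht.2 (hsplit ▸ Finset.Subset.refl _)
      · left
        rw [hsplit]
        refine hbase _ (Finset.ssubset_iff_subset_ne.2 ⟨Finset.inter_subset_right, h1⟩) _ ?_
        exact hLf _ hρLf _ Finset.inter_subset_right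

/-- Induction over finite families closed under subsets. -/
theorem downClosed_induction [Finite V] {P : Set (Finset V) → Prop} (h0 : P ∅)
    (h1 : ∀ L t, DownClosed L → t ∉ L → DownClosed (L ∪ {t}) → P L → P (L ∪ {t}))
    (L : Set (Finset V)) (hL : DownClosed L) : P L := by
  have hfin : ∀ L : Set (Finset V), L.Finite := fun L => L.toFinite
  induction hn : L.ncard using Nat.strong_induction_on generalizing L with
  | _ n ih =>
    rcases L.eq_empty_or_nonempty with rfl | hne
    · exact h0
    · obtain ⟨t, htL, hmax⟩ := (hfin L).exists_maximal hne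
      have hsplit : L = (L \ {t}) ∪ {t} := by
        ext u
        by_cases h : u = t
        · simp [h, htL]
        · simp [h]
      have hdc : DownClosed (L \ {t}) := by
        intro s hs u hu
        refine ⟨hL s hs.1 u hu, ?_⟩
        rintro rfl
        exact hs.2 (Finset.Subset.antisymm (hmax hs.1 hu) hu)
      have hlt : (L \ {t}).ncard < n := by
        rw [← hn]
        exact Set.ncard_lt_ncard ⟨Set.sdiff_subset, fun h => (h htL).2 rfl⟩ (hfin L)
      have := ih _ hlt (L \ {t}) hdc rfl
      rw [hsplit]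
      exact h1 _ t hdc (fun h => h.2 rfl) (hsplit ▸ hL) this

/-- The join of two families (used for families on disjoint vertex sets). -/
def star (K L : Set (Finset V)) : Set (Finset V) := {u | ∃ s ∈ K, ∃ t ∈ L, u = s ∪ t}

theorem star_union_left (K K' L : Set (Finset V)) : star (K ∪ K') L = star K L ∪ star K' L := by
  ext u
  constructor
  · rintro ⟨s, hs | hs, t, ht, rfl⟩
    · exact Or.inl ⟨s, hs, t, ht, rfl⟩
    · exact Or.inr ⟨s, hs, t, ht, rfl⟩
  · rintro (⟨s, hs, t, ht, rfl⟩ | ⟨s, hs, t, ht, rfl⟩)
    · exact ⟨s, Or.inl hs, t, ht, rfl⟩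
    · exact ⟨s, Or.inr hs, t, ht, rfl⟩

theorem star_comm (K L : Set (Finset V)) : star K L = star L K := by
  ext u
  constructor
  · rintro ⟨s, hs, t, ht, rfl⟩; exact ⟨t, ht, s, hs, Finset.union_comm _ _⟩
  · rintro ⟨s, hs, t, ht, rfl⟩; exact ⟨t, ht, s, hs, Finset.union_comm _ _⟩

theorem star_singleton_left (τ : Finset V) (L : Set (Finset V)) :
    star {τ} L = (fun t => τ ∪ t) '' L := by
  ext u
  constructor
  · rintro ⟨s, hs, t, ht, rfl⟩
    rw [Set.mem_singleton_iff] at hs
    exact ⟨t, ht, by rw [hs]⟩
  · rintro ⟨t, ht, rfl⟩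
    exact ⟨τ, rfl, t, ht, rfl⟩

theorem star_empty_left (L : Set (Finset V)) : star ∅ L = ∅ := by
  ext u; constructor
  · rintro ⟨s, hs, -⟩; exact absurd hs (by simp)
  · intro h; exact absurd h (by simp)

/-- Members of `K` and `L` are disjoint. -/
def Disj (K L : Set (Finset V)) : Prop := ∀ s ∈ K, ∀ t ∈ L, Disjoint s t

omit [DecidableEq V] in
theorem Disj.symm {K L : Set (Finset V)} (h : Disj K L) : Disj L K :=
  fun s hs t ht => (h t ht s hs).symm

omit [DecidableEq V] in
theorem Disj.mono {K K' L L' : Set (Finset V)} (h : Disj K L) (hK : K' ⊆ K) (hL : L' ⊆ L) :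
    Disj K' L' := fun s hs t ht => h s (hK hs) t (hL ht)

/-- The join of a collapsible complex with anything is collapsible. -/
theorem Built.star_coll [Finite V] {b : ℕ} {K L : Set (Finset V)} (hK : Built b 0 K)
    (hL : DownClosed L) (hd : Disj K L) (m : ℕ) : Built m 0 (star K L) := by
  revert hd
  refine downClosed_induction (P := fun L => Disj K L → Built m 0 (star K L)) ?_ ?_ L hL
  · intro _
    rw [star_comm, star_empty_left]
    exact Built.void
  · intro L t hL htL hL' ih hd
    have hd' : Disj K L := hd.mono (Set.Subset.refl _) Set.subset_union_left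
    have htd : ∀ s ∈ K, Disjoint t s := fun s hs => (hd s hs t (Or.inr rfl)).symm
    have hdc := hK.downClosed
    have key := (ih hd').cone (Lf := K) (τ := t) hdc htd ?_ ?_ hK (Or.inl rfl) (Set.Subset.refl _)
    · refine key.cast rfl rfl ?_
      rw [star_comm K (L ∪ {t}), star_union_left, star_singleton_left, star_comm K L]
    · intro τ' hτ' s hs
      refine ⟨s, hs, τ', ?_, Finset.union_comm _ _⟩
      rcases hL' t (Or.inr rfl) τ' hτ'.1 with h | h
      · exact h
      · rw [Set.mem_singleton_iff] at h
        exact absurd (h ▸ Finset.Subset.refl _) hτ'.2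
    · rintro s hs ⟨s', hs', t', ht', h⟩
      apply htL
      have h1 : t ⊆ t' := by
        intro x hx
        have : x ∈ s' ∪ t' := h ▸ Finset.mem_union_left _ hx
        rcases Finset.mem_union.1 this with h' | h'
        · exact absurd h' (Finset.disjoint_left.1 (htd s' hs') hx)
        · exact h'
      exact hL _ ht' _ h1

/-- Attaching `{ρ, ρ ∪ v} * L` by expansions. -/
theorem Built.pair [Finite V] {m n : ℕ} {B L : Set (Finset V)} {ρ : Finset V} {v : V}
    (hL : DownClosed L) (hv : v ∉ ρ) (hB : Built m n B) (hd : ∀ t ∈ L, Disjoint (insert v ρ) t)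
    (hbase : ∀ τ', τ' ⊂ insert v ρ → τ' ≠ ρ → ∀ t ∈ L, τ' ∪ t ∈ B)
    (hnew : ∀ t ∈ L, ρ ∪ t ∉ B) :
    Built m n (B ∪ ((fun t => ρ ∪ t) '' L ∪ (fun t => insert v ρ ∪ t) '' L)) := by
  revert hd hbase hnew
  refine downClosed_induction (P := fun L => (∀ t ∈ L, Disjoint (insert v ρ) t) →
    (∀ τ', τ' ⊂ insert v ρ → τ' ≠ ρ → ∀ t ∈ L, τ' ∪ t ∈ B) → (∀ t ∈ L, ρ ∪ t ∉ B) →
    Built m n (B ∪ ((fun t => ρ ∪ t) '' L ∪ (fun t => insert v ρ ∪ t) '' L))) ?_ ?_ L hL
  · intro _ _ _
    simpa using hB
  · intro L t hL htL hL' ih hd hbase hnew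
    have hdt : Disjoint (insert v ρ) t := hd t (Or.inr rfl)
    have hdρ : ∀ u ∈ L ∪ {t}, Disjoint ρ u := fun u hu =>
      Finset.disjoint_of_subset_left (Finset.subset_insert _ _) (hd u hu)
    have ih' := ih (fun u hu => hd u (Or.inl hu)) (fun τ' h h' u hu => hbase τ' h h' u (Or.inl hu))
      (fun u hu => hnew u (Or.inl hu))
    have hvt : v ∉ t := Finset.disjoint_left.1 hdt (Finset.mem_insert_self _ _)
    have key := Built.expand (ρ ∪ t) v (by simp [hv, hvt]) ?_ ?_ ih'
    · refine key.cast rfl rfl ?_
      ext u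
      simp only [Set.mem_union, Set.mem_image, Set.mem_singleton_iff, Set.mem_insert_iff,
        Finset.insert_union]
      constructor
      · rintro ((h | ⟨s, hs, rfl⟩ | ⟨s, hs, rfl⟩) | rfl | rfl)
        · exact Or.inl h
        · exact Or.inr (Or.inl ⟨s, Or.inl hs, rfl⟩)
        · exact Or.inr (Or.inr ⟨s, Or.inl hs, rfl⟩)
        · exact Or.inr (Or.inl ⟨t, Or.inr rfl, rfl⟩)
        · exact Or.inr (Or.inr ⟨t, Or.inr rfl, rfl⟩)
      · rintro (h | ⟨s, hs | rfl, rfl⟩ | ⟨s, hs | rfl, rfl⟩)
        · exact Or.inl (Or.inl h)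
        · exact Or.inl (Or.inr (Or.inl ⟨s, hs, rfl⟩))
        · exact Or.inr (Or.inl rfl)
        · exact Or.inl (Or.inr (Or.inr ⟨s, hs, rfl⟩))
        · exact Or.inr (Or.inr rfl)
    · rintro (h | ⟨s, hs, h⟩ | ⟨s, hs, h⟩)
      · exact hnew t (Or.inr rfl) h
      · have : s = t := union_cancel (hdρ _ (Or.inl hs)) (hdρ _ (Or.inr rfl)) h
        exact htL (this ▸ hs)
      · have h1 : v ∈ ρ ∪ t := by
          rw [← h]; simp
        rcases Finset.mem_union.1 h1 with h1 | h1
        · exact hv h1
        · exact hvt h1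
    · intro u hu hne
      have hu' : u ⊆ insert v ρ ∪ t := by
        rw [Finset.insert_union]; exact hu.1
      have hsplit := union_split hu'
      have hut : u ∩ t ∈ L ∪ {t} := hL' t (Or.inr rfl) _ Finset.inter_subset_right
      by_cases h1 : u ∩ insert v ρ = insert v ρ
      · rw [h1] at hsplit
        refine Or.inr (Or.inr ⟨u ∩ t, ?_, hsplit.symm⟩)
        rcases hut with h | h
        · exact h
        · rw [Set.mem_singleton_iff] at h
          rw [h, Finset.insert_union] at hsplit
          exact absurd (hsplit ▸ Finset.Subset.refl _) hu.2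
      by_cases h2 : u ∩ insert v ρ = ρ
      · rw [h2] at hsplit
        refine Or.inr (Or.inl ⟨u ∩ t, ?_, hsplit.symm⟩)
        rcases hut with h | h
        · exact h
        · rw [Set.mem_singleton_iff] at h
          rw [h] at hsplit
          exact absurd hsplit hne
      · left
        rw [hsplit]
        exact hbase _ (Finset.ssubset_iff_subset_ne.2 ⟨Finset.inter_subset_right, h1⟩) h2 _ hut

/-- The join of two built complexes. -/
theorem Built.star [Finite V] {a b M N : ℕ} {K L : Set (Finset V)} (hK : Built a N K)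
    (hL : Built b M L) (hd : Disj K L) : Built (a + b) (N * M) (star K L) := by
  induction hK with
  | void =>
    rw [star_empty_left, Nat.zero_mul]
    exact Built.void
  | @expand N K ρ v hv hρ hf hK ih =>
    have hd' : Disj K L := hd.mono Set.subset_union_left (Set.Subset.refl _)
    have key := (ih hd').pair (ρ := ρ) (v := v) hL.downClosed hv ?_ ?_ ?_
    · refine key.cast rfl rfl ?_
      rw [star_union_left, Set.insert_eq, star_union_left, star_singleton_left,
        star_singleton_left]
    · exact fun t ht => hd _ (Or.inr (Or.inr rfl)) t ht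
    · exact fun τ' h1 h2 t ht => ⟨τ', hf τ' h1 h2, t, ht, rfl⟩
    · rintro t ht ⟨s, hs, t', ht', h⟩
      apply hρ
      refine hK.downClosed s hs ρ ?_
      intro x hx
      have : x ∈ s ∪ t' := h ▸ Finset.mem_union_left _ hx
      rcases Finset.mem_union.1 this with h' | h'
      · exact h'
      · exact absurd h' (Finset.disjoint_left.1 (hd ρ (Or.inr (Or.inl rfl)) t' ht') hx)
  | @attach N K ρ hc hρ hf hK ih =>
    have hd' : Disj K L := hd.mono Set.subset_union_left (Set.Subset.refl _)
    have hdρ : ∀ t ∈ L, Disjoint ρ t := fun t ht => hd _ (Or.inr rfl) t ht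
    have key := (ih hd').cone (τ := ρ) hL.downClosed hdρ ?_ ?_ hL (Or.inr (by rw [hc]))
      (Set.Subset.refl _)
    · refine key.cast rfl (by ring) ?_
      rw [star_union_left, star_singleton_left]
    · exact fun τ' h t ht => ⟨τ', hf τ' h, t, ht, rfl⟩
    · rintro t ht ⟨s, hs, t', ht', h⟩
      apply hρ
      refine hK.downClosed s hs ρ ?_
      intro x hx
      have : x ∈ s ∪ t' := h ▸ Finset.mem_union_left _ hx
      rcases Finset.mem_union.1 this with h' | h'
      · exact h'
      · exact absurd h' (Finset.disjoint_left.1 (hd ρ (Or.inr rfl) t' ht') hx)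

end Pool.Agent.Lib.MP_53e7c4_co
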