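import Mathlib
import Pool.Agent.Lib.MP_53e7c4_co.Built

/-!
Order complexes of finite posets and the families `Built`.
-/

namespace Pool.Agent.Lib.MP_53e7c4_co

variable {V : Type}

/-- The chains contained in a subset `S` of a poset. -/
def chains [PartialOrder V] (S : Set V) : Set (Finset V) :=
  {s | (s : Set V) ⊆ S ∧ IsChain (· ≤ ·) (s : Set V)}

section
variable [PartialOrder V]

theorem chains_downClosed (S : Set V) : DownClosed (chains S) := fun s hs t ht =>
  ⟨fun x hx => hs.1 (ht hx), hs.2.mono (by simpa using ht)⟩

theorem chains_mono {S T : Set V} (h : S ⊆ T) : chains S ⊆ chains T :=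
  fun _ hs => ⟨hs.1.trans h, hs.2⟩

theorem chains_empty : chains (∅ : Set V) = {∅} := by
  ext s
  constructor
  · rintro ⟨h, -⟩
    simpa using h
  · intro h
    rw [Set.mem_singleton_iff] at h
    subst h
    exact ⟨by simp, by simp⟩

variable [DecidableEq V]

theorem built_chains_empty : Built 0 1 (chains (∅ : Set V)) := by
  rw [chains_empty]
  have := Built.attach (m := 0) (K := (∅ : Set (Finset V))) ∅ rfl (by simp)
    (fun t ht => absurd ht (Finset.not_ssubset_empty t)) Built.void
  simpa using this

omit [DecidableEq V] in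
theorem disj_chains {A B : Set V} (h : ∀ a ∈ A, ∀ b ∈ B, a < b) :
    Disj (chains A) (chains B) := by
  intro s hs t ht
  rw [Finset.disjoint_left]
  intro x hx hx'
  exact lt_irrefl _ (h x (hs.1 hx) x (ht.1 hx'))

theorem chains_union {A B : Set V} (h : ∀ a ∈ A, ∀ b ∈ B, a < b) :
    chains (A ∪ B) = star (chains A) (chains B) := by
  classical
  ext s
  constructor
  · rintro ⟨h1, h2⟩
    refine ⟨s.filter (· ∈ A), ⟨?_, ?_⟩, s.filter (· ∈ B), ⟨?_, ?_⟩, ?_⟩
    · intro x hx; simpa using (Finset.mem_filter.1 (by simpa using hx)).2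
    · exact h2.mono (by intro x hx; simp at hx; exact hx.1)
    · intro x hx; simpa using (Finset.mem_filter.1 (by simpa using hx)).2
    · exact h2.mono (by intro x hx; simp at hx; exact hx.1)
    · ext x
      simp only [Finset.mem_union, Finset.mem_filter]
      constructor
      · intro hx
        rcases h1 hx with h | h
        · exact Or.inl ⟨hx, h⟩
        · exact Or.inr ⟨hx, h⟩
      · rintro (h | h) <;> exact h.1
  · rintro ⟨s, hs, t, ht, rfl⟩
    refine ⟨?_, ?_⟩
    · intro x hx
      rw [Finset.coe_union] at hx
      rcases hx with hx | hx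
      · exact Or.inl (hs.1 hx)
      · exact Or.inr (ht.1 hx)
    · intro x hx y hy hne
      rw [Finset.coe_union] at hx hy
      rcases hx with hx | hx <;> rcases hy with hy | hy
      · exact hs.2 hx hy hne
      · exact Or.inl (h x (hs.1 hx) y (ht.1 hy)).le
      · exact Or.inr (h y (hs.1 hy) x (ht.1 hx)).le
      · exact ht.2 hx hy hne

theorem chains_insert {S : Set V} (x : V) :
    chains (insert x S) =
      chains S ∪ (fun t => {x} ∪ t) '' chains {y | y ∈ S ∧ (y < x ∨ x < y)} := by
  ext s
  constructor
  · rintro ⟨h1, h2⟩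
    by_cases hx : x ∈ s
    · right
      refine ⟨s.erase x, ⟨?_, ?_⟩, ?_⟩
      · intro y hy
        rw [Finset.coe_erase] at hy
        have hys : y ∈ s := hy.1
        have hyx : y ≠ x := hy.2
        refine ⟨?_, ?_⟩
        · rcases h1 hys with h | h
          · exact absurd h hyx
          · exact h
        · rcases h2 hys hx hyx with h | h
          · exact Or.inl (lt_of_le_of_ne h hyx)
          · exact Or.inr (lt_of_le_of_ne h hyx.symm)
      · exact h2.mono (by intro y hy; rw [Finset.coe_erase] at hy; exact hy.1)
      · show {x} ∪ s.erase x = s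
        rw [← Finset.insert_eq, Finset.insert_erase hx]
    · left
      refine ⟨?_, h2⟩
      intro y hy
      rcases h1 hy with h | h
      · subst h; exact absurd hy hx
      · exact h
  · rintro (h | ⟨t, ht, rfl⟩)
    · exact ⟨h.1.trans (Set.subset_insert _ _), h.2⟩
    · refine ⟨?_, ?_⟩
      · intro y hy
        rw [Finset.coe_union] at hy
        rcases hy with hy | hy
        · left; simpa using hy
        · right; exact (ht.1 hy).1
      · intro y hy z hz hne
        rw [Finset.coe_union] at hy hz
        rcases hy with hy | hy <;> rcases hz with hz | hz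
        · simp at hy hz
          exact absurd (hy.trans hz.symm) hne
        · simp at hy
          subst hy
          rcases (ht.1 hz).2 with h | h
          · exact Or.inr h.le
          · exact Or.inl h.le
        · simp at hz
          subst hz
          rcases (ht.1 hy).2 with h | h
          · exact Or.inl h.le
          · exact Or.inr h.le
        · exact ht.2 hy hz hne

theorem Built.add_vertex {m N b M : ℕ} {S : Set V} {x : V} (hx : x ∉ S)
    (hS : Built m N (chains S))
    (hL : Built b M (chains {y | y ∈ S ∧ (y < x ∨ x < y)})) (hcase : M = 0 ∨ m = b + 1) :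
    Built m (N + M) (chains (insert x S)) := by
  have key := hS.cone (τ := {x}) (chains_downClosed _) ?_ ?_ ?_ hL
    (by rw [Finset.card_singleton]; omega) (Set.Subset.refl _)
  · rw [chains_insert]; exact key
  · intro t ht
    rw [Finset.disjoint_singleton_left]
    intro h
    exact hx (ht.1 h).1
  · intro τ' hτ' t ht
    have : τ' = ∅ := by
      rw [Finset.ssubset_singleton_iff] at hτ'
      exact hτ'
    subst this
    rw [Finset.empty_union]
    exact chains_mono (fun y hy => hy.1) ht
  · intro t _ h
    exact hx (h.1 (by simp))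

theorem built_singleton (m : ℕ) (x : V) : Built m 0 (chains ({x} : Set V)) := by
  have h := Built.expand (m := m) (K := (∅ : Set (Finset V))) ∅ x (by simp) (by simp)
    (fun t ht hne => by
      exfalso
      apply hne
      have : t ⊂ {x} := ht
      rwa [Finset.ssubset_singleton_iff] at this) Built.void
  refine h.cast rfl rfl ?_
  ext s
  simp only [Set.empty_union, Set.mem_insert_iff, Set.mem_singleton_iff]
  constructor
  · rintro (rfl | rfl)
    · exact ⟨by simp, by simp⟩
    · exact ⟨by simp, by simp⟩
  · rintro ⟨h, -⟩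
    have : s ⊆ {x} := fun y hy => by simpa using h hy
    rcases Finset.subset_singleton_iff.1 this with h | h
    · exact Or.inl h
    · exact Or.inr h

theorem built_of_max [Finite V] (m : ℕ) {S : Set V} {x : V} (hx : x ∈ S) (h : ∀ y ∈ S, y ≤ x) :
    Built m 0 (chains S) := by
  have h1 : S = (S \ {x}) ∪ {x} := by
    ext y
    by_cases hy : y = x
    · simp [hy, hx]
    · simp [hy]
  have hlt : ∀ a ∈ S \ {x}, ∀ b ∈ ({x} : Set V), a < b := by
    rintro a ha b rfl
    exact lt_of_le_of_ne (h a ha.1) ha.2
  rw [h1, chains_union hlt, star_comm]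
  exact (built_singleton 0 x).star_coll (chains_downClosed _) (disj_chains hlt).symm m

theorem built_of_min [Finite V] (m : ℕ) {S : Set V} {x : V} (hx : x ∈ S) (h : ∀ y ∈ S, x ≤ y) :
    Built m 0 (chains S) := by
  have h1 : S = {x} ∪ (S \ {x}) := by
    ext y
    by_cases hy : y = x
    · simp [hy, hx]
    · simp [hy]
  have hlt : ∀ a ∈ ({x} : Set V), ∀ b ∈ S \ {x}, a < b := by
    rintro a rfl b hb
    exact lt_of_le_of_ne (h b hb.1) (Ne.symm hb.2)
  rw [h1, chains_union hlt]
  exact (built_singleton 0 x).star_coll (chains_downClosed _) (disj_chains hlt) m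

/-- Adding a set of vertices, larger ones first. -/
theorem Built.add_set {m N b : ℕ} (Y : Set V) (c : V → ℕ) (T : Finset V)
    (hYT : ∀ z ∈ T, z ∉ Y)
    (hlink : ∀ z ∈ T, Built b (c z) (chains ({y | y ∈ Y ∧ y < z} ∪ {y | (y ∈ Y ∨ y ∈ T) ∧ z < y})))
    (hcase : (∀ z ∈ T, c z = 0) ∨ m = b + 1) (hY : Built m N (chains Y)) :
    Built m (N + ∑ z ∈ T, c z) (chains (Y ∪ (T : Set V))) := by
  induction hn : T.card using Nat.strong_induction_on generalizing T with
  | _ n ih =>
    rcases T.eq_empty_or_nonempty with rfl | hne
    · simpa using hY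
    · obtain ⟨z, hz⟩ := T.exists_minimal hne
      have hzT : z ∈ T := hz.1
      have hmin : ∀ y ∈ T, ¬ y < z := fun y hy hlt => absurd (hz.2 hy hlt.le) (not_le_of_gt hlt)
      have hcard : (T.erase z).card < n := by
        rw [← hn]; exact Finset.card_erase_lt_of_mem hzT
      have ih' := ih _ hcard (T.erase z) (fun y hy => hYT y (Finset.mem_of_mem_erase hy)) ?_ ?_ rfl
      · have hzn : z ∉ Y ∪ ((T.erase z : Finset V) : Set V) := by
          rintro (h | h)
          · exact hYT z hzT h
          · simp at h
        have hlk : {y | y ∈ Y ∪ ((T.erase z : Finset V) : Set V) ∧ (y < z ∨ z < y)} =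
            ({y | y ∈ Y ∧ y < z} ∪ {y | (y ∈ Y ∨ y ∈ T) ∧ z < y}) := by
          ext y
          simp only [Set.mem_ofPred_eq, Set.mem_union, Finset.coe_erase, Set.mem_sdiff,
            Finset.mem_coe, Set.mem_singleton_iff]
          constructor
          · rintro ⟨h1 | h1, h2 | h2⟩
            · exact Or.inl ⟨h1, h2⟩
            · exact Or.inr ⟨Or.inl h1, h2⟩
            · exact absurd h2 (hmin y h1.1)
            · exact Or.inr ⟨Or.inr h1.1, h2⟩
          · rintro (⟨h1, h2⟩ | ⟨h1 | h1, h2⟩)
            · exact ⟨Or.inl h1, Or.inl h2⟩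
            · exact ⟨Or.inl h1, Or.inr h2⟩
            · exact ⟨Or.inr ⟨h1, h2.ne'⟩, Or.inr h2⟩
        have key := ih'.add_vertex hzn (M := c z) (b := b) (by rw [hlk]; exact hlink z hzT) ?_
        · refine key.cast rfl ?_ ?_
          · rw [add_assoc, Finset.sum_erase_add _ _ hzT]
          · congr 1
            ext y
            simp only [Set.mem_insert_iff, Set.mem_union, Finset.coe_erase, Set.mem_sdiff,
              Finset.mem_coe, Set.mem_singleton_iff]
            constructor
            · rintro (rfl | h | h)
              · exact Or.inr hzT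
              · exact Or.inl h
              · exact Or.inr h.1
            · rintro (h | h)
              · exact Or.inr (Or.inl h)
              · by_cases hy : y = z
                · exact Or.inl hy
                · exact Or.inr (Or.inr ⟨h, hy⟩)
        · rcases hcase with h | h
          · exact Or.inl (h z hzT)
          · exact Or.inr h
      · intro y hy
        have hyT := Finset.mem_of_mem_erase hy
        refine (hlink y hyT).cast rfl rfl ?_
        congr 1
        ext u
        simp only [Set.mem_ofPred_eq, Set.mem_union, Finset.mem_erase]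
        constructor
        · rintro (h | ⟨h1 | h1, h2⟩)
          · exact Or.inl h
          · exact Or.inr ⟨Or.inl h1, h2⟩
          · refine Or.inr ⟨Or.inr ⟨?_, h1⟩, h2⟩
            rintro rfl
            exact hmin y hyT h2
        · rintro (h | ⟨h1 | h1, h2⟩)
          · exact Or.inl h
          · exact Or.inr ⟨Or.inl h1, h2⟩
          · exact Or.inr ⟨Or.inr h1.2, h2⟩
      · rcases hcase with h | h
        · exact Or.inl fun y hy => h y (Finset.mem_of_mem_erase hy)
        · exact Or.inr h

/-- A form of Quillen's fiber lemma. -/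
theorem Built.quillen [Finite V] {m N : ℕ} {S' S : Set V} (hsub : S' ⊆ S)
    (h : ∀ x ∈ S, x ∉ S' → ∃ b, Built b 0 (chains {y | y ∈ S' ∧ y < x}))
    (hB : Built m N (chains S')) : Built m N (chains S) := by
  have hfin : (S \ S').Finite := Set.toFinite _
  have hS : S = S' ∪ (hfin.toFinset : Set V) := by
    ext x
    simp only [Set.Finite.coe_toFinset, Set.mem_union, Set.mem_sdiff]
    constructor
    · intro hx
      by_cases h' : x ∈ S'
      · exact Or.inl h'
      · exact Or.inr ⟨hx, h'⟩
    · rintro (h' | h')
      · exact hsub h'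
      · exact h'.1
  have key := hB.add_set (b := 0) S' (fun _ => 0) hfin.toFinset ?_ ?_ (Or.inl fun _ _ => rfl)
  · rw [hS]
    exact key.cast rfl (by simp) rfl
  · intro z hz
    exact (hfin.mem_toFinset.1 hz).2
  · intro z hz
    have hz' := hfin.mem_toFinset.1 hz
    obtain ⟨b, hb⟩ := h z hz'.1 hz'.2
    have hlt : ∀ a ∈ {y | y ∈ S' ∧ y < z},
        ∀ b ∈ {y | (y ∈ S' ∨ y ∈ hfin.toFinset) ∧ z < y}, a < b :=
      fun a ha b hb => ha.2.trans hb.2
    rw [chains_union hlt]
    exact hb.star_coll (chains_downClosed _) (disj_chains hlt) 0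

end

/-- The dual order. -/
@[reducible] def dualOrder (V : Type) [PartialOrder V] : PartialOrder V where
  le a b := b ≤ a
  lt a b := b < a
  le_refl a := le_refl a
  le_trans _ _ _ h1 h2 := le_trans h2 h1
  lt_iff_le_not_ge _ _ := lt_iff_le_not_ge
  le_antisymm _ _ h1 h2 := le_antisymm h2 h1

theorem chains_dual [PartialOrder V] (S : Set V) : @chains V (dualOrder V) S = chains S := by
  ext s
  constructor
  · rintro ⟨h1, h2⟩
    refine ⟨h1, fun x hx y hy hne => (h2 hx hy hne).symm⟩
  · rintro ⟨h1, h2⟩
    refine ⟨h1, fun x hx y hy hne => (h2 hx hy hne).symm⟩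

/-- The dual form of Quillen's fiber lemma. -/
theorem Built.quillen' [PartialOrder V] [DecidableEq V] [Finite V] {m N : ℕ} {S' S : Set V}
    (hsub : S' ⊆ S)
    (h : ∀ x ∈ S, x ∉ S' → ∃ b, Built b 0 (chains {y | y ∈ S' ∧ x < y}))
    (hB : Built m N (chains S')) : Built m N (chains S) := by
  have key := @Built.quillen V (dualOrder V) _ _ m N S' S hsub ?_ ?_
  · rwa [chains_dual] at key
  · intro x hx hx'
    obtain ⟨b, hb⟩ := h x hx hx'
    exact ⟨b, by rw [chains_dual]; exact hb⟩
  · rw [chains_dual]; exact hB

end Pool.Agent.Lib.MP_53e7c4_co
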