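import Mathlib
import Pool.Agent.Lib.MP_53e7c4_co.Geo

/-!
The quotient map from a simplicial complex onto a wedge of spheres which collapses a subcomplex
missing only finitely many facets.
-/

namespace Pool.Agent.Lib.MP_53e7c4_co

open scoped ContinuousMap
open Topology Set

set_option linter.unusedSectionVars false

/-! ### The one-point compactification of `ℝ^d` is `S^d` -/

theorem exists_onePoint_homeo (d : ℕ) :
    ∃ Φ : OnePoint (Fin d → ℝ) ≃ₜ Sph d, Φ OnePoint.infty = basePt d := by
  let v : EuclideanSpace ℝ (Fin (d + 1)) := EuclideanSpace.single 0 1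
  have hv : ‖v‖ = 1 := by simp [v]
  have hv₀ : v ≠ 0 := fun contra ↦ by simp [contra] at hv
  have hfin : Module.finrank ℝ (EuclideanSpace ℝ (Fin (d + 1))) =
      Module.finrank ℝ (Fin d → ℝ) + 1 := by simp
  have : Fact (Module.finrank ℝ (EuclideanSpace ℝ (Fin (d + 1))) =
      Module.finrank ℝ (Fin d → ℝ) + 1) := ⟨hfin⟩
  have hV : Module.finrank ℝ (Fin d → ℝ) =
      Module.finrank ℝ (Submodule.span ℝ {v} : Submodule ℝ _)ᗮ :=
    (Submodule.finrank_orthogonal_span_singleton hv₀).symm
  let e : (Fin d → ℝ) ≃L[ℝ] ((Submodule.span ℝ {v} : Submodule ℝ _)ᗮ : Submodule ℝ _) :=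
    (FiniteDimensional.nonempty_continuousLinearEquiv_of_finrank_eq hV).some
  refine ⟨e.toHomeomorph.onePointCongr.trans (onePointHyperplaneHomeoUnitSphere hv), ?_⟩
  rw [Homeomorph.trans_apply]
  have h1 : e.toHomeomorph.onePointCongr (OnePoint.infty) = OnePoint.infty := rfl
  rw [h1]
  apply Subtype.ext
  rfl

/-! ### The collapse map onto a one-point compactification -/

section collapse

variable {X E : Type} [TopologicalSpace X] [TopologicalSpace E]

open scoped Classical in
/-- Collapse the complement of the range of an open embedding. -/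
noncomputable def collapseMap (j : E → X) (x : X) : OnePoint E :=
  if h : x ∈ range j then ((h.choose : E) : OnePoint E) else OnePoint.infty

theorem collapseMap_apply {j : E → X} (hj : Function.Injective j) (e : E) :
    collapseMap j (j e) = (e : OnePoint E) := by
  unfold collapseMap
  rw [dif_pos (mem_range_self e)]
  have := (mem_range_self (f := j) e).choose_spec
  rw [hj this]

theorem collapseMap_infty {j : E → X} {x : X} (hx : x ∉ range j) :
    collapseMap j x = OnePoint.infty := by
  unfold collapseMap
  rw [dif_neg hx]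

theorem continuous_collapseMap [T2Space X] {j : E → X} (hj : IsOpenEmbedding j) :
    Continuous (collapseMap j) := by
  refine continuous_def.2 fun U hU => ?_
  by_cases hU' : OnePoint.infty ∈ U
  · have h2 := (OnePoint.isOpen_iff_of_mem hU').1 hU
    have hc : IsCompact (((↑) : E → OnePoint E) ⁻¹' U)ᶜ := h2.2
    have h3 : IsClosed (j '' (((↑) : E → OnePoint E) ⁻¹' U)ᶜ) :=
      (hc.image hj.continuous).isClosed
    have h4 : collapseMap j ⁻¹' U = (j '' (((↑) : E → OnePoint E) ⁻¹' U)ᶜ)ᶜ := by
      ext x
      simp only [mem_preimage, mem_compl_iff, mem_image, not_exists, not_and]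
      constructor
      · intro hx e he hex
        subst hex
        rw [collapseMap_apply hj.injective] at hx
        exact he hx
      · intro hx
        by_cases hxr : x ∈ range j
        · obtain ⟨e, rfl⟩ := hxr
          rw [collapseMap_apply hj.injective]
          by_contra hcon
          exact hx e hcon rfl
        · rw [collapseMap_infty hxr]
          exact hU'
    rw [h4]
    exact h3.isOpen_compl
  · have h2 := (OnePoint.isOpen_iff_of_notMem hU').1 hU
    have h4 : collapseMap j ⁻¹' U = j '' (((↑) : E → OnePoint E) ⁻¹' U) := by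
      ext x
      simp only [mem_preimage, mem_image]
      constructor
      · intro hx
        by_cases hxr : x ∈ range j
        · obtain ⟨e, rfl⟩ := hxr
          rw [collapseMap_apply hj.injective] at hx
          exact ⟨e, hx, rfl⟩
        · rw [collapseMap_infty hxr] at hx
          exact absurd hx hU'
      · rintro ⟨e, he, rfl⟩
        rw [collapseMap_apply hj.injective]
        exact he
    rw [h4]
    exact hj.isOpenMap _ h2

end collapse

/-! ### The wedge of spheres inside the product -/

section wedge

variable (N d : ℕ)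

/-- The map from the wedge to the product of the spheres. -/
noncomputable def wedgeMap : SphereWedge N d → (Fin N → Sph d) :=
  Quot.lift (fun a : (_ : Fin N) × Sph d => Function.update (fun _ => basePt d) a.1 a.2)
    (by
      rintro ⟨i, a⟩ ⟨j, b⟩ ⟨h1, h2⟩
      simp only at h1 h2
      subst h1
      subst h2
      funext k
      simp [Function.update_apply])

theorem wedgeMap_mk (i : Fin N) (z : Sph d) :
    wedgeMap N d (Quot.mk _ ⟨i, z⟩) = Function.update (fun _ => basePt d) i z := rfl

theorem continuous_wedgeMap : Continuous (wedgeMap N d) := by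
  refine continuous_quot_lift _ ?_
  refine continuous_sigma fun i => ?_
  exact continuous_const.update i continuous_id

theorem injective_wedgeMap : Function.Injective (wedgeMap N d) := by
  intro a b
  induction a using Quot.ind with | _ a
  induction b using Quot.ind with | _ b
  obtain ⟨i, z⟩ := a
  obtain ⟨j, w⟩ := b
  intro h
  rw [wedgeMap_mk, wedgeMap_mk] at h
  by_cases hij : i = j
  · subst hij
    have := congrFun h i
    simp only [Function.update_self] at this
    rw [this]
  · have h1 := congrFun h i
    have h2 := congrFun h j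
    simp only [Function.update_self] at h1 h2
    rw [Function.update_of_ne hij] at h1
    rw [Function.update_of_ne (Ne.symm hij)] at h2
    exact Quot.sound ⟨h1, h2.symm⟩

instance : CompactSpace (SphereWedge N d) :=
  inferInstanceAs (CompactSpace (Quot _))

theorem isClosedEmbedding_wedgeMap : IsClosedEmbedding (wedgeMap N d) :=
  (continuous_wedgeMap N d).isClosedEmbedding (injective_wedgeMap N d)

instance : T2Space (SphereWedge N d) :=
  (isClosedEmbedding_wedgeMap N d).isEmbedding.t2Space

end wedge

/-! ### Open simplices -/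

section simplex

variable {V : Type} [Fintype V] [DecidableEq V]

/-- Softmax on the vertices of `s`. -/
noncomputable def softmax {d : ℕ} {s : Finset V} (e : Fin (d + 1) ≃ s) (y : Fin d → ℝ) (v : V) :
    ℝ :=
  if h : v ∈ s then Real.exp ((Fin.cons 0 y : Fin (d + 1) → ℝ) (e.symm ⟨v, h⟩)) /
    ∑ k, Real.exp ((Fin.cons 0 y : Fin (d + 1) → ℝ) k) else 0

theorem softmax_sum_pos {d : ℕ} (y : Fin d → ℝ) :
    0 < ∑ k, Real.exp ((Fin.cons 0 y : Fin (d + 1) → ℝ) k) :=
  Finset.sum_pos (fun _ _ => Real.exp_pos _) Finset.univ_nonempty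

theorem softmax_apply {d : ℕ} {s : Finset V} (e : Fin (d + 1) ≃ s) (y : Fin d → ℝ)
    (k : Fin (d + 1)) : softmax e y (e k) = Real.exp ((Fin.cons 0 y : Fin (d + 1) → ℝ) k) /
    ∑ k, Real.exp ((Fin.cons 0 y : Fin (d + 1) → ℝ) k) := by
  unfold softmax
  rw [dif_pos (e k).2]
  simp

theorem softmax_of_notMem {d : ℕ} {s : Finset V} (e : Fin (d + 1) ≃ s) (y : Fin d → ℝ)
    {v : V} (hv : v ∉ s) : softmax e y v = 0 := by
  unfold softmax
  rw [dif_neg hv]

theorem softmax_pos {d : ℕ} {s : Finset V} (e : Fin (d + 1) ≃ s) (y : Fin d → ℝ)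
    {v : V} (hv : v ∈ s) : 0 < softmax e y v := by
  unfold softmax
  rw [dif_pos hv]
  exact div_pos (Real.exp_pos _) (softmax_sum_pos y)

theorem supp_softmax {d : ℕ} {s : Finset V} (e : Fin (d + 1) ≃ s) (y : Fin d → ℝ) :
    supp (softmax e y) = s := by
  ext v
  rw [mem_supp]
  by_cases hv : v ∈ s
  · simp [hv, (softmax_pos e y hv).ne']
  · simp [hv, softmax_of_notMem e y hv]

theorem sum_eq_sum_equiv {d : ℕ} {s : Finset V} (e : Fin (d + 1) ≃ s) (f : V → ℝ)
    (hf : ∀ v, v ∉ s → f v = 0) : ∑ v, f v = ∑ k, f (e k) := by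
  rw [← Finset.sum_subset (Finset.subset_univ s) (fun v _ hv => hf v hv)]
  rw [← Finset.sum_coe_sort s f]
  exact (Equiv.sum_comp e (fun v : s => f v)).symm

theorem sum_softmax {d : ℕ} {s : Finset V} (e : Fin (d + 1) ≃ s) (y : Fin d → ℝ) :
    ∑ v, softmax e y v = 1 := by
  rw [sum_eq_sum_equiv e _ (fun v hv => softmax_of_notMem e y hv)]
  simp only [softmax_apply]
  rw [← Finset.sum_div]
  exact div_self (softmax_sum_pos y).ne'

theorem continuous_softmax {d : ℕ} {s : Finset V} (e : Fin (d + 1) ≃ s) :
    Continuous (softmax e) := by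
  refine continuous_pi fun v => ?_
  unfold softmax
  by_cases hv : v ∈ s
  · simp only [dif_pos hv]
    refine Continuous.div ?_ ?_ fun y => (softmax_sum_pos y).ne'
    · refine Real.continuous_exp.comp ?_
      generalize e.symm ⟨v, hv⟩ = k
      refine Fin.cases ?_ (fun k => ?_) k
      · simpa using continuous_const
      · simpa using continuous_apply k
    · refine continuous_finsetSum _ fun k _ => Real.continuous_exp.comp ?_
      refine Fin.cases ?_ (fun k => ?_) k
      · simpa using continuous_const
      · simpa using continuous_apply k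
  · simp only [dif_neg hv]
    exact continuous_const

/-! ### Compactness of geometric realizations -/

theorem isCompact_geo {L : Set (Finset V)} (hL : DownClosed L) : IsCompact (geo L) := by
  have h1 : geo L = stdSimplex ℝ V ∩ ⋃ t ∈ L, {x : V → ℝ | ∀ v, v ∉ t → x v = 0} := by
    ext x
    simp only [geo, stdSimplex, mem_ofPred_eq, mem_inter_iff, mem_iUnion, exists_prop]
    constructor
    · rintro ⟨h0, h1, h2⟩
      refine ⟨⟨h0, h1⟩, supp x, h2, fun v hv => ?_⟩
      rw [mem_supp] at hv
      exact not_not.1 hv
    · rintro ⟨⟨h0, h1⟩, t, ht, h2⟩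
      refine ⟨h0, h1, hL t ht _ fun v hv => ?_⟩
      rw [mem_supp] at hv
      by_contra hcon
      exact hv (h2 v hcon)
  rw [h1]
  refine (isCompact_stdSimplex ℝ V).inter_right ?_
  refine (Set.toFinite L).isClosed_biUnion fun t _ => ?_
  simp only [ofPred_forall]
  refine isClosed_iInter fun v => isClosed_iInter fun _ => ?_
  exact isClosed_eq (continuous_apply v) continuous_const

/-! ### The open facets -/

variable {K : Set (Finset V)} {N d : ℕ} {s : Fin N → Finset V}

theorem supp_eq_of_ne_zero (hK : DownClosed K) (hcard : ∀ i, (s i).card = d + 1)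
    (hsK : ∀ i, s i ∉ K) {x : V → ℝ} (hx : x ∈ geo (K ∪ range s)) {i : Fin N}
    (h : ∀ u ∈ s i, x u ≠ 0) : supp x = s i := by
  have hsub : s i ⊆ supp x := fun u hu => mem_supp.2 (h u hu)
  rcases hx.2.2 with hxK | ⟨j, hj⟩
  · exact absurd (hK _ hxK _ hsub) (hsK i)
  · refine (Finset.eq_of_subset_of_card_le hsub ?_).symm
    rw [← hj, hcard, hcard]

theorem mem_geo_iff (hK : DownClosed K) (hcard : ∀ i, (s i).card = d + 1)
    (hsK : ∀ i, s i ∉ K) {x : V → ℝ} (hx : x ∈ geo (K ∪ range s)) :
    x ∈ geo K ↔ ∀ i, ¬ ∀ u ∈ s i, x u ≠ 0 := by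
  constructor
  · intro hxK i h
    apply hsK i
    rw [← supp_eq_of_ne_zero hK hcard hsK hx h]
    exact hxK.2.2
  · intro h
    refine ⟨hx.1, hx.2.1, ?_⟩
    rcases hx.2.2 with hxK | ⟨j, hj⟩
    · exact hxK
    · exfalso
      apply h j
      intro u hu
      rw [hj, mem_supp] at hu
      exact hu

/-- The open facet `s i` is homeomorphic to `ℝ^d`. -/
theorem exists_facet_embedding (hK : DownClosed K) (hcard : ∀ i, (s i).card = d + 1)
    (hsK : ∀ i, s i ∉ K) (i : Fin N) :
    ∃ j : (Fin d → ℝ) → geo (K ∪ range s), IsOpenEmbedding j ∧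
      ∀ x, x ∈ range j ↔ ∀ u ∈ s i, x.1 u ≠ 0 := by
  let e : Fin (d + 1) ≃ s i := ((s i).equivFinOfCardEq (hcard i)).symm
  let U : Set (geo (K ∪ range s)) := {x | ∀ u ∈ s i, x.1 u ≠ 0}
  have hU : IsOpen U := by
    have : U = ⋂ u ∈ s i, {x : geo (K ∪ range s) | x.1 u ≠ 0} := by
      ext x; simp [U]
    rw [this]
    refine isOpen_biInter_finset fun u _ => ?_
    exact isOpen_ne_fun ((continuous_apply u).comp continuous_subtype_val) continuous_const
  have hpos : ∀ x : U, ∀ u ∈ s i, 0 < x.1.1 u := fun x u hu =>
    lt_of_le_of_ne (x.1.2.1 u) (x.2 u hu).symm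
  have hsupp : ∀ x : U, supp x.1.1 = s i := fun x =>
    supp_eq_of_ne_zero hK hcard hsK x.1.2 x.2
  let h : (Fin d → ℝ) ≃ₜ U :=
    { toFun := fun y => ⟨⟨softmax e y, fun v => by
          by_cases hv : v ∈ s i
          · exact (softmax_pos e y hv).le
          · exact (softmax_of_notMem e y hv).ge, sum_softmax e y, by
          rw [supp_softmax]; exact Or.inr (mem_range_self i)⟩,
          fun u hu => (softmax_pos e y hu).ne'⟩
      invFun := fun x k => Real.log (x.1.1 (e k.succ)) - Real.log (x.1.1 (e 0))
      left_inv := by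
        intro y
        funext k
        have hS := softmax_sum_pos y
        simp only [softmax_apply]
        rw [Real.log_div (Real.exp_pos _).ne' hS.ne', Real.log_div (Real.exp_pos _).ne' hS.ne',
          Real.log_exp, Real.log_exp]
        simp
      right_inv := by
        intro x
        apply Subtype.ext
        apply Subtype.ext
        funext v
        have hx0 : 0 < x.1.1 (e 0) := hpos x _ (e 0).2
        have hexp : ∀ k : Fin (d + 1), Real.exp ((Fin.cons 0 (fun k : Fin d =>
            Real.log (x.1.1 (e k.succ)) - Real.log (x.1.1 (e 0))) : Fin (d + 1) → ℝ) k) =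
            x.1.1 (e k) / x.1.1 (e 0) := by
          intro k
          refine Fin.cases ?_ (fun k => ?_) k
          · simp [div_self hx0.ne']
          · simp only [Fin.cons_succ]
            rw [Real.exp_sub, Real.exp_log (hpos x _ (e k.succ).2), Real.exp_log hx0]
        have hsum : ∑ k, x.1.1 (e k) = 1 := by
          rw [← x.1.2.2.1]
          refine (sum_eq_sum_equiv e _ fun v hv => ?_).symm
          by_contra hne
          apply hv
          rw [← hsupp x, mem_supp]
          exact hne
        by_cases hv : v ∈ s i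
        · obtain ⟨k, hk⟩ := e.surjective ⟨v, hv⟩
          have hk' : v = (e k : V) := by rw [hk]
          subst hk'
          simp only [softmax_apply, hexp]
          rw [← Finset.sum_div, hsum]
          field_simp
        · have h0 : x.1.1 v = 0 := by
            by_contra hne
            apply hv
            rw [← hsupp x, mem_supp]
            exact hne
          simp only [softmax_of_notMem e _ hv, h0]
      continuous_toFun := by
        refine Continuous.subtype_mk (Continuous.subtype_mk (continuous_softmax e) _) _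
      continuous_invFun := by
        refine continuous_pi fun k => ?_
        refine Continuous.sub ?_ ?_
        · refine Continuous.log ?_ fun x => (hpos x _ (e k.succ).2).ne'
          exact (continuous_apply _).comp (continuous_subtype_val.comp continuous_subtype_val)
        · refine Continuous.log ?_ fun x => (hpos x _ (e 0).2).ne'
          exact (continuous_apply _).comp (continuous_subtype_val.comp continuous_subtype_val) }
  refine ⟨Subtype.val ∘ h, hU.isOpenEmbedding_subtypeVal.comp h.isOpenEmbedding, fun x => ?_⟩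
  rw [range_comp, h.surjective.range_eq, image_univ, Subtype.range_val]
  rfl

end simplex

/-! ### The collapse map onto the wedge -/

variable {V : Type} [Fintype V] [DecidableEq V]

/-- The collapse map onto the wedge. -/
theorem exists_collapse {K : Set (Finset V)} (hK : DownClosed K) {N d : ℕ} (hN : 1 ≤ N)
    (hd : 1 ≤ d)
    (s : Fin N → Finset V) (hs : Function.Injective s) (hcard : ∀ i, (s i).card = d + 1)
    (hsK : ∀ i, s i ∉ K) (hf : ∀ i, ∀ t, t ⊂ s i → t ∈ K) :
    ∃ q : geo (K ∪ Set.range s) → SphereWedge N d, Topology.IsQuotientMap q ∧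
      ∀ x y, q x = q y ↔ x = y ∨ (x.1 ∈ geo K ∧ y.1 ∈ geo K) := by
  obtain ⟨Φ, hΦ⟩ := exists_onePoint_homeo d
  choose j hj hjr using fun i => exists_facet_embedding (N := N) (d := d) hK hcard hsK i
  let i₀ : Fin N := ⟨0, hN⟩
  let κ : geo (K ∪ Set.range s) → (Fin N → Sph d) := fun x i => Φ (collapseMap (j i) x)
  have hκ : Continuous κ := continuous_pi fun i => Φ.continuous.comp (continuous_collapseMap (hj i))
  have hκbase : ∀ x i, x ∉ range (j i) → κ x i = basePt d := by
    intro x i hx
    simp only [κ]
    rw [collapseMap_infty hx, hΦ]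
  have hκj : ∀ i e, κ (j i e) i = Φ (e : OnePoint (Fin d → ℝ)) := by
    intro i e
    simp only [κ]
    rw [collapseMap_apply (hj i).injective]
  have hκne : ∀ x i, x ∈ range (j i) → κ x i ≠ basePt d := by
    rintro x i ⟨e, rfl⟩
    rw [hκj, ← hΦ]
    intro h
    exact OnePoint.coe_ne_infty _ (Φ.injective h)
  have huniq : ∀ x i k, x ∈ range (j i) → x ∈ range (j k) → i = k := by
    intro x i k h1 h2
    apply hs
    rw [← supp_eq_of_ne_zero hK hcard hsK x.2 ((hjr i x).1 h1),
      ← supp_eq_of_ne_zero hK hcard hsK x.2 ((hjr k x).1 h2)]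
  have hgeo : ∀ x : geo (K ∪ Set.range s), x.1 ∈ geo K ↔ ∀ i, x ∉ range (j i) := by
    intro x
    rw [mem_geo_iff hK hcard hsK x.2]
    exact forall_congr' fun i => not_congr (hjr i x).symm
  have hκK : ∀ x : geo (K ∪ Set.range s), x.1 ∈ geo K → κ x = fun _ => basePt d := by
    intro x hx
    funext i
    exact hκbase x i ((hgeo x).1 hx i)
  have hκi : ∀ x i, x ∈ range (j i) → κ x = Function.update (fun _ => basePt d) i (κ x i) := by
    intro x i hx
    funext k
    by_cases hk : k = i
    · subst hk; simp
    · rw [Function.update_of_ne hk]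
      exact hκbase x k fun h => hk (huniq x k i h hx)
  have hex : ∀ x, ∃ w, wedgeMap N d w = κ x := by
    intro x
    by_cases hx : x.1 ∈ geo K
    · refine ⟨Quot.mk _ ⟨i₀, basePt d⟩, ?_⟩
      rw [hκK x hx, wedgeMap_mk]
      funext k
      simp [Function.update_apply]
    · rw [hgeo x] at hx
      push Not at hx
      obtain ⟨i, hi⟩ := hx
      exact ⟨Quot.mk _ ⟨i, κ x i⟩, by rw [wedgeMap_mk]; exact (hκi x i hi).symm⟩
  choose q hq using hex
  have hqκ : ∀ x y, q x = q y ↔ κ x = κ y := by
    intro x y
    rw [← hq x, ← hq y]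
    exact (injective_wedgeMap N d).eq_iff.symm
  have hqc : Continuous q := by
    rw [(isClosedEmbedding_wedgeMap N d).isEmbedding.continuous_iff]
    have : wedgeMap N d ∘ q = κ := funext hq
    rw [this]
    exact hκ
  have hLd : DownClosed (K ∪ Set.range s) := by
    rintro a (ha | ⟨i, rfl⟩) t hta
    · exact Or.inl (hK a ha t hta)
    · rcases hta.eq_or_ssubset with h | h
      · exact Or.inr ⟨i, h.symm⟩
      · exact Or.inl (hf i t h)
  have : CompactSpace (geo (K ∪ Set.range s)) := isCompact_iff_compactSpace.1 (isCompact_geo hLd)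
  have hsurj : Function.Surjective q := by
    intro w
    induction w using Quot.ind with | _ a
    obtain ⟨i, z⟩ := a
    by_cases hz : z = basePt d
    · subst hz
      have hne : (s i).Nonempty := by
        rw [← Finset.card_pos, hcard]; omega
      obtain ⟨v, hv⟩ := hne
      have hvK : ({v} : Finset V) ∈ K := by
        apply hf i
        refine Finset.ssubset_iff_subset_ne.2 ⟨by simpa using hv, ?_⟩
        intro h
        have := hcard i
        rw [← h, Finset.card_singleton] at this
        omega
      have hsupp : supp (Pi.single v (1 : ℝ) : V → ℝ) = {v} := by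
        ext u
        rw [mem_supp, Finset.mem_singleton]
        by_cases hu : u = v
        · subst hu; simp
        · simp [hu]
      have hx : (Pi.single v (1 : ℝ) : V → ℝ) ∈ geo K := by
        refine ⟨fun u => ?_, ?_, ?_⟩
        · by_cases hu : u = v
          · subst hu; simp
          · simp [hu]
        · simp
        · rw [hsupp]; exact hvK
      have hx' : (Pi.single v (1 : ℝ) : V → ℝ) ∈ geo (K ∪ Set.range s) :=
        ⟨hx.1, hx.2.1, Or.inl hx.2.2⟩
      refine ⟨⟨_, hx'⟩, injective_wedgeMap N d ?_⟩
      rw [hq, hκK _ hx, wedgeMap_mk]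
      funext k
      simp [Function.update_apply]
    · have hne : Φ.symm z ≠ OnePoint.infty := by
        intro h
        apply hz
        rw [← hΦ, ← h]
        simp
      obtain ⟨y, hy⟩ := OnePoint.ne_infty_iff_exists.1 hne
      refine ⟨j i y, injective_wedgeMap N d ?_⟩
      rw [hq, hκi _ i (mem_range_self y), hκj, hy, wedgeMap_mk]
      simp
  refine ⟨q, hqc.isClosedMap.isQuotientMap hqc hsurj, fun x y => ?_⟩
  rw [hqκ]
  constructor
  · intro h
    by_cases hx : x.1 ∈ geo K
    · right
      refine ⟨hx, ?_⟩
      rw [hgeo y]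
      intro i hi
      apply hκne y i hi
      rw [← h, hκK x hx]
    · left
      rw [hgeo x] at hx
      push Not at hx
      obtain ⟨i, hi⟩ := hx
      have hy : y ∈ range (j i) := by
        by_contra hcon
        apply hκne x i hi
        rw [h]
        exact hκbase y i hcon
      obtain ⟨e, rfl⟩ := hi
      obtain ⟨e', rfl⟩ := hy
      have h2 := congrFun h i
      rw [hκj, hκj] at h2
      have h3 := Φ.injective h2
      rw [OnePoint.coe_eq_coe] at h3
      rw [h3]
  · rintro (rfl | ⟨hx, hy⟩)
    · rfl
    · rw [hκK x hx, hκK y hy]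

end Pool.Agent.Lib.MP_53e7c4_co
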