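import Mathlib
import Pool.Agent.Lib.MP_53e7c4_co.Chains

/-!
Set partitions (as equivalence relations): number of classes, merging classes, intervals.
-/

namespace Pool.Agent.Lib.MP_53e7c4_co

variable {n : ℕ}

/-- Number of classes. -/
noncomputable def nc (r : Setoid (Fin n)) : ℕ := Nat.card (Quotient r)

theorem nc_lt_of_lt {r s : Setoid (Fin n)} (h : r < s) : nc s < nc r := by
  have hle : r ≤ s := h.le
  have hsurj : Function.Surjective (Setoid.map_of_le hle) := by
    intro q
    induction q using Quotient.inductionOn with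
    | _ a => exact ⟨Quotient.mk r a, rfl⟩
  have h1 : nc s ≤ nc r := Nat.card_le_card_of_surjective _ hsurj
  refine lt_of_le_of_ne h1 fun heq => ?_
  have hinj : Function.Injective (Setoid.map_of_le hle) := by
    have hb := (Nat.bijective_iff_surjective_and_card (Setoid.map_of_le hle)).2 ⟨hsurj, heq.symm⟩
    exact hb.1
  apply h.not_ge
  intro x y hxy
  have : Setoid.map_of_le hle (Quotient.mk r x) = Setoid.map_of_le hle (Quotient.mk r y) :=
    Quotient.sound hxy
  exact Quotient.exact (hinj this)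

/-- Merge all the classes which meet `B` into one class. -/
def mergeSet (r : Setoid (Fin n)) (B : Set (Fin n)) : Setoid (Fin n) where
  r x y := r x y ∨ (∃ b ∈ B, r x b) ∧ (∃ b ∈ B, r y b)
  iseqv := by
    refine ⟨fun x => Or.inl (r.refl' x), ?_, ?_⟩
    · rintro x y (h | ⟨h1, h2⟩)
      · exact Or.inl (r.symm' h)
      · exact Or.inr ⟨h2, h1⟩
    · rintro x y z (h | ⟨h1, h2⟩) (h' | ⟨h1', h2'⟩)
      · exact Or.inl (r.trans' h h')
      · obtain ⟨b, hb, hyb⟩ := h1'
        exact Or.inr ⟨⟨b, hb, r.trans' h hyb⟩, h2'⟩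
      · obtain ⟨b, hb, hyb⟩ := h2
        exact Or.inr ⟨h1, ⟨b, hb, r.trans' (r.symm' h') hyb⟩⟩
      · exact Or.inr ⟨h1, h2'⟩

theorem mergeSet_apply (r : Setoid (Fin n)) (B : Set (Fin n)) (x y : Fin n) :
    mergeSet r B x y ↔ r x y ∨ (∃ b ∈ B, r x b) ∧ (∃ b ∈ B, r y b) := Iff.rfl

theorem le_mergeSet (r : Setoid (Fin n)) (B : Set (Fin n)) : r ≤ mergeSet r B :=
  fun _ _ h => Or.inl h

theorem mergeSet_le {r s : Setoid (Fin n)} {B : Set (Fin n)} (h : r ≤ s)
    (hB : ∀ b ∈ B, ∀ c ∈ B, s b c) : mergeSet r B ≤ s := by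
  rintro x y (hxy | ⟨⟨b, hb, hxb⟩, ⟨c, hc, hyc⟩⟩)
  · exact h hxy
  · exact s.trans' (h hxb) (s.trans' (hB b hb c hc) (s.symm' (h hyc)))

/-- Merge the classes of `a` and `b`. -/
def mrg (r : Setoid (Fin n)) (a b : Fin n) : Setoid (Fin n) := mergeSet r {a, b}

theorem mrg_apply (r : Setoid (Fin n)) (a b : Fin n) (x y : Fin n) :
    mrg r a b x y ↔ r x y ∨ (r x a ∨ r x b) ∧ (r y a ∨ r y b) := by
  show (r x y ∨ (∃ c ∈ ({a, b} : Set (Fin n)), r x c) ∧ (∃ c ∈ ({a, b} : Set (Fin n)), r y c)) ↔ _
  simp

theorem nc_mrg (r : Setoid (Fin n)) {a b : Fin n} (h : ¬ r a b) : nc (mrg r a b) + 1 = nc r := by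
  classical
  have hle : r ≤ mrg r a b := le_mergeSet _ _
  let f : {q : Quotient r // q ≠ Quotient.mk r b} → Quotient (mrg r a b) :=
    fun q => Setoid.map_of_le hle q.1
  have hf : Function.Bijective f := by
    constructor
    · rintro ⟨p, hp⟩ ⟨q, hq⟩ hpq
      induction p using Quotient.inductionOn with
      | _ x =>
      induction q using Quotient.inductionOn with
      | _ y =>
      have h1 : mrg r a b x y := Quotient.exact hpq
      have hxb : ¬ r x b := fun h' => hp (Quotient.sound h')
      have hyb : ¬ r y b := fun h' => hq (Quotient.sound h')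
      rw [mrg_apply] at h1
      apply Subtype.ext
      apply Quotient.sound
      rcases h1 with h1 | ⟨h1, h2⟩
      · exact h1
      · have hxa := h1.resolve_right hxb
        have hya := h2.resolve_right hyb
        exact r.trans' hxa (r.symm' hya)
    · intro q
      induction q using Quotient.inductionOn with
      | _ x =>
      by_cases hx : r x b
      · refine ⟨⟨Quotient.mk r a, fun h' => h (Quotient.exact h')⟩, ?_⟩
        apply Quotient.sound
        show mrg r a b a x
        rw [mrg_apply]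
        exact Or.inr ⟨Or.inl (r.refl' a), Or.inr hx⟩
      · exact ⟨⟨Quotient.mk r x, fun h' => hx (Quotient.exact h')⟩, rfl⟩
  have h1 := Nat.card_eq_of_bijective f hf
  have h2 : Nat.card {q : Quotient r // q ≠ Quotient.mk r b} + 1 = Nat.card (Quotient r) := by
    have : Fintype (Quotient r) := Fintype.ofFinite _
    rw [Nat.card_eq_fintype_card, Nat.card_eq_fintype_card, Fintype.card_subtype_compl,
      Fintype.card_subtype_eq]
    have : 0 < Fintype.card (Quotient r) := Fintype.card_pos_iff.2 ⟨Quotient.mk r b⟩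
    omega
  unfold nc
  omega

theorem nc_top (hn : 0 < n) : nc (⊤ : Setoid (Fin n)) = 1 := by
  unfold nc
  have : Subsingleton (Quotient (⊤ : Setoid (Fin n))) := by
    rw [Quotient.subsingleton_iff]
  have : Nonempty (Quotient (⊤ : Setoid (Fin n))) := ⟨Quotient.mk _ ⟨0, hn⟩⟩
  exact Nat.card_unique

theorem nc_bot : nc (⊥ : Setoid (Fin n)) = n := by
  unfold nc
  rw [Nat.card_congr (Setoid.quotientBotEquiv (α := Fin n))]
  simp

theorem nc_mergeSet (r : Setoid (Fin n)) (B : Finset (Fin n)) (hB : B.Nonempty)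
    (hs : ∀ b ∈ B, ∀ x, r b x → x = b) :
    nc (mergeSet r (B : Set (Fin n))) + B.card = nc r + 1 := by
  induction hB using Finset.Nonempty.cons_induction with
  | singleton b =>
    have : mergeSet r ((({b} : Finset (Fin n))) : Set (Fin n)) = r := by
      ext x y
      rw [mergeSet_apply]
      constructor
      · rintro (h | ⟨⟨c, hc, h1⟩, ⟨d, hd, h2⟩⟩)
        · exact h
        · simp at hc hd
          subst hc hd
          exact r.trans' h1 (r.symm' h2)
      · exact Or.inl
    rw [this, Finset.card_singleton]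
  | cons b B hb hBne ih =>
    obtain ⟨b0, hb0⟩ := hBne
    have ih' := ih (fun c hc => hs c (Finset.mem_cons_of_mem hc))
    have hbs : ∀ x, r b x → x = b := hs b (Finset.mem_cons_self _ _)
    have hnb : ∀ c ∈ B, ¬ r b c := by
      intro c hc h
      have := hbs c h
      subst this
      exact hb hc
    have hnot : ¬ mergeSet r (B : Set (Fin n)) b0 b := by
      rintro (h | ⟨-, ⟨c, hc, h⟩⟩)
      · exact hnb b0 hb0 (r.symm' h)
      · exact hnb c hc h
    have heq : mergeSet r ((Finset.cons b B hb : Finset (Fin n)) : Set (Fin n)) =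
        mrg (mergeSet r (B : Set (Fin n))) b0 b := by
      apply le_antisymm
      · apply mergeSet_le
        · exact (le_mergeSet _ _).trans (le_mergeSet _ _)
        · have key : ∀ c ∈ ((Finset.cons b B hb : Finset (Fin n)) : Set (Fin n)),
              mrg (mergeSet r (B : Set (Fin n))) b0 b b0 c := by
            intro c hc
            rw [mrg_apply]
            simp only [Finset.coe_cons, Set.mem_insert_iff, Finset.mem_coe] at hc
            rcases hc with rfl | hc
            · exact Or.inr ⟨Or.inl (Setoid.refl' _ _), Or.inr (Setoid.refl' _ _)⟩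
            · left
              exact Or.inr ⟨⟨b0, hb0, r.refl' _⟩, ⟨c, hc, r.refl' _⟩⟩
          intro c hc d hd
          exact Setoid.trans' _ (Setoid.symm' _ (key c hc)) (key d hd)
      · apply mergeSet_le
        · apply mergeSet_le (le_mergeSet _ _)
          intro c hc d hd
          exact Or.inr ⟨⟨c, by simp [Finset.mem_coe.1 hc], r.refl' _⟩,
            ⟨d, by simp [Finset.mem_coe.1 hd], r.refl' _⟩⟩
        · intro c hc d hd
          have h1 : ∀ c ∈ ({b0, b} : Set (Fin n)),
              c ∈ ((Finset.cons b B hb : Finset (Fin n)) : Set (Fin n)) := by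
            rintro c (rfl | hc)
            · simp [hb0]
            · rw [Set.mem_singleton_iff] at hc
              subst hc
              simp
          exact Or.inr ⟨⟨c, h1 c hc, r.refl' _⟩, ⟨d, h1 d hd, r.refl' _⟩⟩
    rw [heq, Finset.card_cons]
    have := nc_mrg (mergeSet r (B : Set (Fin n))) hnot
    omega

/-- The partition into `B` and its complement. -/
def two (B : Set (Fin n)) : Setoid (Fin n) where
  r x y := x ∈ B ↔ y ∈ B
  iseqv := ⟨fun _ => Iff.rfl, fun h => h.symm, fun h h' => h.trans h'⟩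

theorem two_apply (B : Set (Fin n)) (x y : Fin n) : two B x y ↔ (x ∈ B ↔ y ∈ B) := Iff.rfl

/-- The class of `b`. -/
def cls (r : Setoid (Fin n)) (b : Fin n) : Set (Fin n) := {y | r b y}

theorem mem_cls {r : Setoid (Fin n)} {b y : Fin n} : y ∈ cls r b ↔ r b y := Iff.rfl

theorem le_two_cls (r : Setoid (Fin n)) (b : Fin n) : r ≤ two (cls r b) := fun _ _ h =>
  ⟨fun h' => r.trans' h' h, fun h' => r.trans' h' (r.symm' h)⟩

/-- If `z` restricted to (class, complement) is `x` then `z` arises by merging two classes. -/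
theorem eq_mrg {x z : Setoid (Fin n)} {b c : Fin n} (hxz : x ≤ z) (hz : z ⊓ two (cls x b) ≤ x)
    (hbc : z b c) (hnbc : ¬ x b c) : z = mrg x b c := by
  apply le_antisymm
  · -- first the case of `u` in the class and `v` outside
    have key : ∀ u v, z u v → x b u → ¬ x b v → mrg x b c u v := by
      intro u v huv hu hv
      rw [mrg_apply]
      refine Or.inr ⟨Or.inl (x.symm' hu), Or.inr ?_⟩
      apply hz
      refine ⟨?_, ?_⟩
      · exact z.trans' (z.symm' huv) (z.trans' (z.symm' (hxz hu)) hbc)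
      · show v ∈ cls x b ↔ c ∈ cls x b
        exact ⟨fun h => absurd h hv, fun h => absurd h hnbc⟩
    intro u v huv
    by_cases hu : x b u <;> by_cases hv : x b v
    · exact Or.inl (hz ⟨huv, ⟨fun _ => hv, fun _ => hu⟩⟩)
    · exact key u v huv hu hv
    · exact Setoid.symm' _ (key v u (z.symm' huv) hv hu)
    · exact Or.inl (hz ⟨huv, ⟨fun h => absurd h hu, fun h => absurd h hv⟩⟩)
  · apply mergeSet_le hxz
    have h1 : ∀ d ∈ ({b, c} : Set (Fin n)), z b d := by
      rintro d (rfl | h)
      · exact z.refl' _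
      · rw [Set.mem_singleton_iff] at h
        subst h; exact hbc
    intro d hd e he
    exact z.trans' (z.symm' (h1 d hd)) (h1 e he)

theorem exists_eq_mrg {x z : Setoid (Fin n)} {b : Fin n} (hxz : x < z)
    (hz : z ⊓ two (cls x b) ≤ x) : ∃ c, z b c ∧ ¬ x b c ∧ z = mrg x b c := by
  have : ∃ c, z b c ∧ ¬ x b c := by
    by_contra hcon
    push Not at hcon
    apply hxz.not_ge
    intro u v huv
    apply hz
    refine ⟨huv, ⟨fun h => ?_, fun h => ?_⟩⟩
    · exact hcon v (z.trans' (hxz.le h) huv)
    · exact hcon u (z.trans' (hxz.le h) (z.symm' huv))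
  obtain ⟨c, h1, h2⟩ := this
  exact ⟨c, h1, h2, eq_mrg hxz.le hz h1 h2⟩

theorem mrg_inf_two_le (x : Setoid (Fin n)) (b a : Fin n) : mrg x b a ⊓ two (cls x b) ≤ x := by
  rintro u v ⟨h1, h2⟩
  have h1' := (mrg_apply x b a u v).1 h1
  have h2' : x b u ↔ x b v := h2
  rcases h1' with h | ⟨hu | hu, hv | hv⟩
  · exact h
  · exact x.trans' hu (x.symm' hv)
  · exact x.trans' hu (h2'.1 (x.symm' hu))
  · exact x.trans' (x.symm' (h2'.2 (x.symm' hv))) (x.symm' hv)
  · exact x.trans' hu (x.symm' hv)

theorem lt_mrg {x : Setoid (Fin n)} {a b : Fin n} (h : ¬ x b a) : x < mrg x b a := by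
  refine lt_of_le_not_ge (le_mergeSet _ _) fun h' => h (h' ?_)
  rw [mrg_apply]
  exact Or.inr ⟨Or.inl (x.refl' _), Or.inr (x.refl' _)⟩

theorem mrg_le {x y : Setoid (Fin n)} {a b : Fin n} (h : x ≤ y) (hab : y b a) :
    mrg x b a ≤ y := by
  apply mergeSet_le h
  have h1 : ∀ d ∈ ({b, a} : Set (Fin n)), y b d := by
    rintro d (rfl | h)
    · exact y.refl' _
    · rw [Set.mem_singleton_iff] at h
      subst h; exact hab
  intro d hd e he
  exact y.trans' (y.symm' (h1 d hd)) (h1 e he)

end Pool.Agent.Lib.MP_53e7c4_co
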