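import Mathlib
import Pool.Agent.Lib.MP_53e7c4_co.Part

/-!
Order complexes of intervals in the partition lattice.
-/

namespace Pool.Agent.Lib.MP_53e7c4_co

/-- Intervals in the partition lattice are built with spheres of one dimension. -/
theorem built_Ioo {n : ℕ} [DecidableEq (Setoid (Fin n))] (m : ℕ) : ∀ x y : Setoid (Fin n), x < y → nc x = nc y + m + 1 →
    ∃ N, 1 ≤ N ∧ Built m N (chains (Set.Ioo x y)) := by
  have instF : Finite (Setoid (Fin n)) := instFiniteSetoid n
  induction m with
  | zero =>
    intro x y hxy hc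
    have : Set.Ioo x y = ∅ := by
      ext z
      simp only [Set.mem_Ioo, Set.mem_empty_iff_false, iff_false]
      rintro ⟨h1, h2⟩
      have := nc_lt_of_lt h1
      have := nc_lt_of_lt h2
      omega
    rw [this]
    exact ⟨1, le_refl _, built_chains_empty⟩
  | succ m ih =>
    intro x y hxy hc
    obtain ⟨b, a, hyba, hxba⟩ : ∃ b a, y b a ∧ ¬ x b a := by
      by_contra hcon
      push Not at hcon
      exact hxy.not_ge fun u v huv => hcon u v huv
    set β := two (cls x b) with hβ
    have hxβ : x ≤ β := le_two_cls x b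
    set S := Set.Ioo x y with hS
    -- the elements merging the class of `b`
    have hT1fin : {z | z ∈ S ∧ z ⊓ β ≤ x}.Finite := Set.toFinite _
    set T := hT1fin.toFinset with hT
    have hTmem : ∀ z, z ∈ T ↔ z ∈ S ∧ z ⊓ β ≤ x := fun z => hT1fin.mem_toFinset
    set Y : Set (Setoid (Fin n)) := {z | z ∈ S ∧ ¬ z ⊓ β ≤ x} with hY
    have hYT : Y ∪ (T : Set (Setoid (Fin n))) = S := by
      ext z
      simp only [Set.mem_union, Finset.mem_coe, hTmem]
      constructor
      · rintro (h | h)
        · exact h.1
        · exact h.1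
      · intro h
        by_cases h' : z ⊓ β ≤ x
        · exact Or.inr ⟨h, h'⟩
        · exact Or.inl ⟨h, h'⟩
    -- `Y` is collapsible
    have hYcoll : Built (m + 1) 0 (chains Y) := by
      set S' : Set (Setoid (Fin n)) := {z | z ∈ S ∧ z ≤ β} with hS'
      have hS'Y : S' ⊆ Y := by
        rintro z ⟨h1, h2⟩
        refine ⟨h1, fun h => ?_⟩
        rw [inf_eq_left.2 h2] at h
        exact h1.1.not_ge h
      refine Built.quillen hS'Y ?_ (built_of_max (m + 1) (x := y ⊓ β) ?_ ?_)
      · intro z hz hz'
        have hzβ : ¬ z ≤ β := fun h => hz' ⟨hz.1, h⟩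
        refine ⟨0, built_of_max 0 (x := z ⊓ β) ?_ ?_⟩
        · refine ⟨⟨⟨lt_of_le_not_ge (le_inf hz.1.1.le hxβ) hz.2,
            lt_of_le_of_lt inf_le_left hz.1.2⟩, inf_le_right⟩, ?_⟩
          exact lt_of_le_of_ne inf_le_left fun h => hzβ (inf_eq_left.1 h)
        · rintro u ⟨hu, huz⟩
          exact le_inf huz.le hu.2
      · refine ⟨⟨lt_of_le_not_ge (le_inf hxy.le hxβ) fun h => ?_, ?_⟩, inf_le_right⟩
        · have h1 := eq_mrg hxy.le h hyba hxba
          have h2 := nc_mrg x hxba
          rw [← h1] at h2
          omega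
        · refine lt_of_le_of_ne inf_le_left fun h => ?_
          have h1 : y ≤ β := inf_eq_left.1 h
          have h2 : b ∈ cls x b ↔ a ∈ cls x b := h1 hyba
          exact hxba (h2.1 (x.refl' b))
      · rintro u ⟨hu, hub⟩
        exact le_inf hu.2.le hub
    -- adding the elements of `T`
    have hTnc : ∀ z ∈ T, x < z ∧ nc z + 1 = nc x := by
      intro z hz
      rw [hTmem] at hz
      obtain ⟨c, hc1, hc2, rfl⟩ := exists_eq_mrg hz.1.1 hz.2
      exact ⟨hz.1.1, nc_mrg x hc2⟩
    have hex : ∀ z : Setoid (Fin n), ∃ c : ℕ, z ∈ T → 1 ≤ c ∧ Built m c (chains (Set.Ioo z y)) := by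
      intro z
      by_cases hz : z ∈ T
      · have h1 := hTnc z hz
        obtain ⟨N, hN1, hN2⟩ := ih z y ((hTmem z).1 hz).1.2 (by omega)
        exact ⟨N, fun _ => ⟨hN1, hN2⟩⟩
      · exact ⟨0, fun h => absurd h hz⟩
    choose c hc' using hex
    have key := hYcoll.add_set (b := m) Y c T ?_ ?_ (Or.inr rfl)
    · rw [hYT] at key
      refine ⟨_, ?_, key⟩
      -- `T` is nonempty
      have hmem : mrg x b a ∈ T := by
        rw [hTmem]
        refine ⟨⟨lt_mrg hxba, lt_of_le_of_ne (mrg_le hxy.le hyba) fun h => ?_⟩,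
          mrg_inf_two_le x b a⟩
        have h2 := nc_mrg x hxba
        rw [h] at h2
        omega
      have h1 : c (mrg x b a) ≤ ∑ z ∈ T, c z :=
        Finset.single_le_sum (f := c) (fun _ _ => Nat.zero_le _) hmem
      have h2 := (hc' _ hmem).1
      omega
    · intro z hz h
      exact h.2 ((hTmem z).1 hz).2
    · intro z hz
      have h1 := hTnc z hz
      have hlk : ({u | u ∈ Y ∧ u < z} ∪ {u | (u ∈ Y ∨ u ∈ T) ∧ z < u}) = Set.Ioo z y := by
        ext u
        constructor
        · rintro (⟨h2, h3⟩ | ⟨h2, h3⟩)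
          · have h4 := nc_lt_of_lt h3
            have h5 := nc_lt_of_lt h2.1.1
            omega
          · refine ⟨h3, ?_⟩
            rcases h2 with h2 | h2
            · exact h2.1.2
            · exact ((hTmem u).1 h2).1.2
        · rintro ⟨h2, h3⟩
          refine Or.inr ⟨?_, h2⟩
          have hu : u ∈ S := ⟨h1.1.trans h2, h3⟩
          by_cases h' : u ⊓ β ≤ x
          · exact Or.inr ((hTmem u).2 ⟨hu, h'⟩)
          · exact Or.inl ⟨hu, h'⟩
      rw [hlk]
      exact (hc' z hz).2

/-- Upper intervals in the partition lattice without the coatom isolating the class of `a`. -/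
theorem built_Ioo_sdiff {n : ℕ} [DecidableEq (Setoid (Fin n))] (hn : 0 < n) (m : ℕ) : ∀ (x : Setoid (Fin n)) (a : Fin n),
    1 ≤ m → nc x = m + 2 → ∃ N, 1 ≤ N ∧ Built m N (chains (Set.Ioo x ⊤ \ {two (cls x a)})) := by
  have instF : Finite (Setoid (Fin n)) := instFiniteSetoid n
  have htop : nc (⊤ : Setoid (Fin n)) = 1 := nc_top hn
  induction m with
  | zero => intro _ _ h; omega
  | succ m ih =>
    intro x a _ hc
    have hxtop : x < ⊤ := by
      refine lt_of_le_of_ne le_top fun h => ?_
      rw [h, htop] at hc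
      omega
    obtain ⟨b, hxba⟩ : ∃ b, ¬ x b a := by
      by_contra hcon
      push Not at hcon
      exact hxtop.not_ge fun u v _ => x.trans' (hcon u) (x.symm' (hcon v))
    have hxab : ¬ x a b := fun h => hxba (x.symm' h)
    -- a third class
    obtain ⟨e, hea, heb⟩ : ∃ e, ¬ x a e ∧ ¬ x b e := by
      by_contra hcon
      push Not at hcon
      have h1 : mrg x b a = ⊤ := by
        rw [Setoid.eq_top_iff]
        have h2 : ∀ u, mrg x b a u a := by
          intro u
          rw [mrg_apply]
          by_cases hu : x a u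
          · exact Or.inl (x.symm' hu)
          · exact Or.inr ⟨Or.inl (x.symm' (hcon u hu)), Or.inr (x.refl' a)⟩
        intro u v
        exact Setoid.trans' _ (h2 u) (Setoid.symm' _ (h2 v))
      have h2 := nc_mrg x hxba
      rw [h1, htop] at h2
      omega
    set β := two (cls x b) with hβ
    set α := two (cls x a) with hα
    have hxβ : x ≤ β := le_two_cls x b
    have hαbe : α b e := ⟨fun h => absurd h hxab, fun h => absurd h hea⟩
    have hβbe : ¬ β b e := fun h => heb (h.1 (x.refl' b))
    have hαβ : ¬ α ≤ β := fun h => hβbe (h hαbe)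
    have hαba : ¬ α b a := fun h => hxab (h.2 (x.refl' a))
    set S := Set.Ioo x ⊤ \ {α} with hS
    have hSmem : ∀ z, z ∈ S ↔ x < z ∧ z < ⊤ ∧ z ≠ α := fun z =>
      ⟨fun h => ⟨h.1.1, h.1.2, h.2⟩, fun h => ⟨⟨h.1, h.2.1⟩, h.2.2⟩⟩
    have hT1fin : {z | z ∈ S ∧ z ⊓ β ≤ x}.Finite := Set.toFinite _
    set T := hT1fin.toFinset with hT
    have hTmem : ∀ z, z ∈ T ↔ z ∈ S ∧ z ⊓ β ≤ x := fun z => hT1fin.mem_toFinset
    set Y : Set (Setoid (Fin n)) := {z | z ∈ S ∧ ¬ z ⊓ β ≤ x} with hY
    have hYT : Y ∪ (T : Set (Setoid (Fin n))) = S := by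
      ext z
      simp only [Set.mem_union, Finset.mem_coe, hTmem]
      constructor
      · rintro (h | h)
        · exact h.1
        · exact h.1
      · intro h
        by_cases h' : z ⊓ β ≤ x
        · exact Or.inr ⟨h, h'⟩
        · exact Or.inl ⟨h, h'⟩
    -- `Y` is collapsible
    have hYcoll : Built (m + 1) 0 (chains Y) := by
      set S' : Set (Setoid (Fin n)) := {z | z ∈ S ∧ z ≤ β} with hS'
      have hS'Y : S' ⊆ Y := by
        rintro z ⟨h1, h2⟩
        refine ⟨h1, fun h => ?_⟩
        rw [inf_eq_left.2 h2] at h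
        exact h1.1.1.not_ge h
      refine Built.quillen hS'Y ?_ (built_of_max (m + 1) (x := β) ?_ ?_)
      · intro z hz hz'
        have hzβ : ¬ z ≤ β := fun h => hz' ⟨hz.1, h⟩
        refine ⟨0, built_of_max 0 (x := z ⊓ β) ?_ ?_⟩
        · refine ⟨⟨(hSmem _).2 ⟨lt_of_le_not_ge (le_inf hz.1.1.1.le hxβ) hz.2,
            lt_of_le_of_lt inf_le_left hz.1.1.2, ?_⟩, inf_le_right⟩, ?_⟩
          · intro h
            exact hαβ (h ▸ inf_le_right)
          · exact lt_of_le_of_ne inf_le_left fun h => hzβ (inf_eq_left.1 h)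
        · rintro u ⟨hu, huz⟩
          exact le_inf huz.le hu.2
      · refine ⟨(hSmem _).2 ⟨lt_of_le_not_ge hxβ fun h => ?_, ?_, ?_⟩, le_refl _⟩
        · have h0 : (⊤ : Setoid (Fin n)) ⊓ two (cls x b) ≤ x := by
            rw [top_inf_eq]; exact h
          have h1 := eq_mrg hxtop.le h0 (c := a) trivial hxba
          have h2 := nc_mrg x hxba
          rw [← h1] at h2
          omega
        · refine lt_of_le_of_ne le_top fun h => ?_
          apply hβbe
          rw [h]
          trivial
        · intro h
          exact hαβ h.ge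
      · rintro u ⟨_, hub⟩
        exact hub
    -- adding the elements of `T`
    have hTnc : ∀ z ∈ T, x < z ∧ nc z + 1 = nc x := by
      intro z hz
      rw [hTmem] at hz
      obtain ⟨c, hc1, hc2, rfl⟩ := exists_eq_mrg hz.1.1.1 hz.2
      exact ⟨hz.1.1.1, nc_mrg x hc2⟩
    have hex : ∀ z : Setoid (Fin n), ∃ c : ℕ, z ∈ T →
        ((z b a → 1 ≤ c) ∧ Built m c (chains (Set.Ioo z ⊤ \ {α}))) := by
      intro z
      by_cases hz : z ∈ T
      · have h1 := hTnc z hz
        have hzS := (hSmem z).1 ((hTmem z).1 hz).1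
        by_cases hza : z b a
        · obtain ⟨N, hN1, hN2⟩ := built_Ioo m z ⊤ hzS.2.1 (by omega)
          refine ⟨N, fun _ => ⟨fun _ => hN1, ?_⟩⟩
          have : Set.Ioo z ⊤ \ {α} = Set.Ioo z ⊤ := by
            ext u
            constructor
            · exact fun h => h.1
            · intro h
              refine ⟨h, ?_⟩
              intro hu
              rw [Set.mem_singleton_iff] at hu
              subst hu
              exact hαba (h.1.le hza)
          rw [this]
          exact hN2
        · obtain ⟨c, hc1, hc2, hzc⟩ := exists_eq_mrg hzS.1 ((hTmem z).1 hz).2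
          -- the class of `a` is unchanged
          have hcls : cls z a = cls x a := by
            ext u
            constructor
            · intro hu
              have hu' : z a u := hu
              rw [hzc, mrg_apply] at hu'
              rcases hu' with h | ⟨h | h, -⟩
              · exact h
              · exact absurd (x.symm' h) hxba
              · exfalso
                apply hza
                exact z.trans' hc1 (z.symm' (hzS.1.le h))
            · intro hu
              exact hzS.1.le hu
          have hzα : z < α := by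
            refine lt_of_le_of_ne ?_ hzS.2.2
            rw [hα, ← hcls]
            exact le_two_cls z a
          have hαtop : α < ⊤ := by
            refine lt_of_le_of_ne le_top fun h => ?_
            apply hαba
            rw [h]
            trivial
          have h2 := nc_lt_of_lt hzα
          have h3 := nc_lt_of_lt hαtop
          obtain ⟨N, hN1, hN2⟩ := ih z a (by omega) (by omega)
          refine ⟨N, fun _ => ⟨fun _ => hN1, ?_⟩⟩
          rw [hcls] at hN2
          exact hN2
      · exact ⟨0, fun h => absurd h hz⟩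
    choose c hc' using hex
    have key := hYcoll.add_set (b := m) Y c T ?_ ?_ (Or.inr rfl)
    · rw [hYT] at key
      refine ⟨_, ?_, key⟩
      -- `T` is nonempty
      have hba : mrg x b a b a := by
        rw [mrg_apply]
        exact Or.inr ⟨Or.inl (x.refl' _), Or.inr (x.refl' _)⟩
      have hmem : mrg x b a ∈ T := by
        rw [hTmem]
        refine ⟨(hSmem _).2 ⟨lt_mrg hxba, lt_of_le_of_ne le_top fun h => ?_, fun h => ?_⟩,
          mrg_inf_two_le x b a⟩
        · have h2 := nc_mrg x hxba
          rw [h] at h2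
          omega
        · apply hαba
          rw [← h]
          exact hba
      have h1 : c (mrg x b a) ≤ ∑ z ∈ T, c z :=
        Finset.single_le_sum (f := c) (fun _ _ => Nat.zero_le _) hmem
      have h2 := (hc' _ hmem).1 hba
      omega
    · intro z hz h
      exact h.2 ((hTmem z).1 hz).2
    · intro z hz
      have h1 := hTnc z hz
      have hlk : ({u | u ∈ Y ∧ u < z} ∪ {u | (u ∈ Y ∨ u ∈ T) ∧ z < u}) =
          Set.Ioo z ⊤ \ {α} := by
        ext u
        constructor
        · rintro (⟨h2, h3⟩ | ⟨h2, h3⟩)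
          · have h4 := nc_lt_of_lt h3
            have h5 := nc_lt_of_lt h2.1.1.1
            omega
          · have h4 : u ∈ S := by
              rcases h2 with h2 | h2
              · exact h2.1
              · exact ((hTmem u).1 h2).1
            exact ⟨⟨h3, h4.1.2⟩, h4.2⟩
        · rintro ⟨⟨h2, h3⟩, h4⟩
          refine Or.inr ⟨?_, h2⟩
          have hu : u ∈ S := ⟨⟨h1.1.trans h2, h3⟩, h4⟩
          by_cases h' : u ⊓ β ≤ x
          · exact Or.inr ((hTmem u).2 ⟨hu, h'⟩)
          · exact Or.inl ⟨hu, h'⟩
      rw [hlk]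
      exact (hc' z hz).2

end Pool.Agent.Lib.MP_53e7c4_co
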