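import Mathlib
import Pool.Agent.Lib.MP_53e7c4_co.Interval

/-!
The combinatorial part: the order complex of the poset of partitions of `[2k+1]` without a
block of size `k`.
-/

namespace Pool.Agent.Lib.MP_53e7c4_co

variable {n : ℕ}

/-- The partition with the block `W`, all other blocks being singletons. -/
def sg (W : Set (Fin n)) : Setoid (Fin n) := mergeSet ⊥ W

theorem sg_apply (W : Set (Fin n)) (x y : Fin n) : sg W x y ↔ x = y ∨ (x ∈ W ∧ y ∈ W) := by
  show (x = y ∨ (∃ b ∈ W, x = b) ∧ (∃ b ∈ W, y = b)) ↔ _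
  constructor
  · rintro (h | ⟨⟨b, hb, rfl⟩, ⟨c, hc, rfl⟩⟩)
    · exact Or.inl h
    · exact Or.inr ⟨hb, hc⟩
  · rintro (h | ⟨h1, h2⟩)
    · exact Or.inl h
    · exact Or.inr ⟨⟨x, h1, rfl⟩, ⟨y, h2, rfl⟩⟩

/-- No block of size `k`. -/
def NoK (k : ℕ) (r : Setoid (Fin n)) : Prop := ∀ x, (cls r x).ncard ≠ k

/-- The partitions strictly above `sg W`, not the top one, without a block of size `k`. -/
def U (k : ℕ) (W : Set (Fin n)) : Set (Setoid (Fin n)) := {r | sg W < r ∧ r < ⊤ ∧ NoK k r}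

theorem nc_mergeSet' (r : Setoid (Fin n)) (B : Set (Fin n)) (hB : B.Nonempty)
    (hs : ∀ b ∈ B, ∀ x, r b x → x = b) : nc (mergeSet r B) + B.ncard = nc r + 1 := by
  have hf : B.Finite := B.toFinite
  have h := nc_mergeSet r hf.toFinset (by simpa using hB) (by simpa using hs)
  rw [Set.Finite.coe_toFinset] at h
  rwa [Set.ncard_eq_toFinset_card B hf]

theorem nc_sg {W : Set (Fin n)} (hW : W.Nonempty) : nc (sg W) + W.ncard = n + 1 := by
  have h := nc_mergeSet' (⊥ : Setoid (Fin n)) W hW (fun b _ x hx => Eq.symm hx)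
  rw [nc_bot] at h
  exact h

theorem cls_sg {W : Set (Fin n)} {w : Fin n} (hw : w ∈ W) : cls (sg W) w = W := by
  ext y
  rw [mem_cls, sg_apply]
  constructor
  · rintro (rfl | h)
    · exact hw
    · exact h.2
  · exact fun h => Or.inr ⟨hw, h⟩

theorem cls_sg_of_notMem {W : Set (Fin n)} {x : Fin n} (hx : x ∉ W) : cls (sg W) x = {x} := by
  ext y
  rw [mem_cls, sg_apply, Set.mem_singleton_iff]
  constructor
  · rintro (rfl | h)
    · rfl
    · exact absurd h.1 hx
  · exact fun h => Or.inl h.symm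

theorem subset_cls {W : Set (Fin n)} {w : Fin n} (hw : w ∈ W) {r : Setoid (Fin n)}
    (h : sg W ≤ r) : W ⊆ cls r w := fun y hy => h ((sg_apply W w y).2 (Or.inr ⟨hw, hy⟩))

theorem sg_le {W : Set (Fin n)} {r : Setoid (Fin n)} (h : ∀ x ∈ W, ∀ y ∈ W, r x y) :
    sg W ≤ r := by
  intro x y hxy
  rcases (sg_apply W x y).1 hxy with rfl | h'
  · exact r.refl' _
  · exact h x h'.1 y h'.2

theorem sg_le_two (W : Set (Fin n)) : sg W ≤ two W :=
  sg_le fun _ hx _ hy => ⟨fun _ => hy, fun _ => hx⟩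

theorem mrg_sg {W : Set (Fin n)} {w c : Fin n} (hw : w ∈ W) (hc : c ∉ W) :
    mrg (sg W) w c = sg (insert c W) := by
  ext x y
  have h1 : ∀ x, sg W x w ↔ x ∈ W := by
    intro x
    rw [sg_apply]
    constructor
    · rintro (rfl | h)
      · exact hw
      · exact h.1
    · exact fun h => Or.inr ⟨h, hw⟩
  have h2 : ∀ x, sg W x c ↔ x = c := by
    intro x
    rw [sg_apply]
    constructor
    · rintro (rfl | h)
      · rfl
      · exact absurd h.2 hc
    · exact fun h => Or.inl h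
  show mrg (sg W) w c x y ↔ sg (insert c W) x y
  rw [mrg_apply, h1, h1, h2, h2, sg_apply, sg_apply]
  simp only [Set.mem_insert_iff]
  tauto

theorem noK_inf {k : ℕ} {z : Setoid (Fin n)} {W : Set (Fin n)} {w : Fin n} (hw : w ∈ W)
    (hz : sg W ≤ z) (hW : W.ncard ≠ k) (hk : NoK k z) (hne : (cls z w).ncard ≠ W.ncard + k) :
    NoK k (z ⊓ two W) := by
  intro x
  have hWz : W ⊆ cls z w := subset_cls hw hz
  by_cases hx : x ∈ W
  · have : cls (z ⊓ two W) x = W := by
      ext y
      constructor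
      · intro h
        exact (h.2 : x ∈ W ↔ y ∈ W).1 hx
      · intro h
        exact ⟨z.trans' (z.symm' (hWz hx)) (hWz h), ⟨fun _ => h, fun _ => hx⟩⟩
    rw [this]
    exact hW
  · by_cases hzx : z w x
    · have : cls (z ⊓ two W) x = cls z w \ W := by
        ext y
        constructor
        · intro h
          exact ⟨z.trans' hzx h.1, fun hy => hx ((h.2 : x ∈ W ↔ y ∈ W).2 hy)⟩
        · rintro ⟨h1, h2⟩
          exact ⟨z.trans' (z.symm' hzx) h1, ⟨fun h => absurd h hx, fun h => absurd h h2⟩⟩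
      rw [this]
      have := Set.ncard_sdiff_add_ncard_of_subset hWz
      omega
    · have : cls (z ⊓ two W) x = cls z x := by
        ext y
        constructor
        · exact fun h => h.1
        · intro h
          refine ⟨h, ⟨fun h => absurd h hx, fun h' => ?_⟩⟩
          exfalso
          exact hzx (z.trans' (hWz h') (z.symm' h))
      rw [this]
      exact hk x

/-- The partitions in `U k W` that are not obtained by merging `W` with one more element, and
such that the block of `w` does not have size `|W| + k`. -/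
def Y (k : ℕ) (W : Set (Fin n)) (w : Fin n) : Set (Setoid (Fin n)) :=
  {z | z ∈ U k W ∧ ¬ z ⊓ two W ≤ sg W ∧ (cls z w).ncard ≠ W.ncard + k}

theorem ncard_cls_le {W : Set (Fin n)} {w : Fin n} (hw : w ∈ W) {z : Setoid (Fin n)}
    (h : z ≤ two W) : (cls z w).ncard ≤ W.ncard := by
  apply Set.ncard_le_ncard _ (Set.toFinite _)
  intro y hy
  exact (h hy : w ∈ W ↔ y ∈ W).1 hw

theorem mem_Y_of_le {k : ℕ} (hk : 0 < k) {W : Set (Fin n)} {w : Fin n} (hw : w ∈ W)
    {z : Setoid (Fin n)} (hz : z ∈ U k W) (h : z ≤ two W) : z ∈ Y k W w := by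
  refine ⟨hz, ?_, ?_⟩
  · rw [inf_eq_left.2 h]
    exact hz.1.not_ge
  · have := ncard_cls_le hw h
    omega

/-- For `z ∈ Y` the partition `z ⊓ two W` is again in `Y`. -/
theorem inf_mem_Y {k : ℕ} (hk : 0 < k) {W : Set (Fin n)} {w : Fin n} (hw : w ∈ W)
    (hW : W.ncard ≠ k) {z : Setoid (Fin n)} (hz : z ∈ Y k W w) : z ⊓ two W ∈ Y k W w := by
  refine mem_Y_of_le hk hw ⟨?_, ?_, ?_⟩ inf_le_right
  · exact lt_of_le_not_ge (le_inf hz.1.1.le (sg_le_two W)) hz.2.1
  · exact lt_of_le_of_lt inf_le_left hz.1.2.1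
  · exact noK_inf hw hz.1.1.le hW hz.1.2.2 hz.2.2

theorem cls_two_of_mem {W : Set (Fin n)} {x : Fin n} (hx : x ∈ W) : cls (two W) x = W := by
  ext y
  exact ⟨fun h => (h : x ∈ W ↔ y ∈ W).1 hx, fun h => ⟨fun _ => h, fun _ => hx⟩⟩

theorem cls_two_of_notMem {W : Set (Fin n)} {x : Fin n} (hx : x ∉ W) : cls (two W) x = Wᶜ := by
  ext y
  exact ⟨fun h h' => hx ((h : x ∈ W ↔ y ∈ W).2 h'),
    fun h => ⟨fun h' => absurd h' hx, fun h' => absurd h' h⟩⟩

theorem two_mem_U {k : ℕ} {W : Set (Fin n)} (hne : W.Nonempty) (hW : W.ncard ≠ k)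
    (hW' : Wᶜ.ncard ≠ k) (hc : 2 ≤ Wᶜ.ncard) : two W ∈ U k W := by
  obtain ⟨w, hw⟩ := hne
  obtain ⟨a, ha, b, hb, hab⟩ := (Set.one_lt_ncard (Set.toFinite _)).1 hc
  refine ⟨lt_of_le_not_ge (sg_le_two W) fun h => ?_, ?_, ?_⟩
  · have h1 : two W a b := ⟨fun h => absurd h ha, fun h => absurd h hb⟩
    rcases (sg_apply W a b).1 (h h1) with h' | h'
    · exact hab h'
    · exact ha h'.1
  · refine lt_of_le_of_ne le_top fun h => ?_
    have h1 : two W w a := by rw [h]; trivial
    exact ha ((h1 : w ∈ W ↔ a ∈ W).1 hw)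
  · intro x
    by_cases hx : x ∈ W
    · rw [cls_two_of_mem hx]; exact hW
    · rw [cls_two_of_notMem hx]; exact hW'

/-- `Y` is collapsible. -/
theorem built_Y {k : ℕ} (hk : 0 < k) {W : Set (Fin n)} {w : Fin n} (hw : w ∈ W)
    (hW : W.ncard ≠ k) (hW' : Wᶜ.ncard ≠ k) (hc : 2 ≤ Wᶜ.ncard) [DecidableEq (Setoid (Fin n))]
    (m : ℕ) : Built m 0 (chains (Y k W w)) := by
  have instF : Finite (Setoid (Fin n)) := instFiniteSetoid n
  refine Built.quillen (S' := {z | z ∈ U k W ∧ z ≤ two W})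
    (fun z hz => mem_Y_of_le hk hw hz.1 hz.2) ?_ (built_of_max m (x := two W) ?_ ?_)
  · intro z hz hz'
    have hzβ : ¬ z ≤ two W := fun h => hz' ⟨hz.1, h⟩
    refine ⟨0, built_of_max 0 (x := z ⊓ two W) ?_ ?_⟩
    · exact ⟨⟨(inf_mem_Y hk hw hW hz).1, inf_le_right⟩,
        lt_of_le_of_ne inf_le_left fun h => hzβ (inf_eq_left.1 h)⟩
    · rintro u ⟨hu, huz⟩
      exact le_inf huz.le hu.2
  · exact ⟨two_mem_U ⟨w, hw⟩ hW hW' hc, le_refl _⟩
  · rintro u ⟨_, hub⟩
    exact hub

/-- The partition equal to `y` on the block of `w` in `z`, and to `z` outside of it. -/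
def jn (z : Setoid (Fin n)) (w : Fin n) (y : Setoid (Fin n)) : Setoid (Fin n) where
  r a b := z a b ∧ (z w a → y a b)
  iseqv := by
    refine ⟨fun a => ⟨z.refl' a, fun _ => y.refl' a⟩, ?_, ?_⟩
    · rintro a b ⟨h1, h2⟩
      exact ⟨z.symm' h1, fun h => y.symm' (h2 (z.trans' h (z.symm' h1)))⟩
    · rintro a b c ⟨h1, h2⟩ ⟨h3, h4⟩
      exact ⟨z.trans' h1 h3, fun h => y.trans' (h2 h) (h4 (z.trans' h h1))⟩

theorem jn_le (z : Setoid (Fin n)) (w : Fin n) (y : Setoid (Fin n)) : jn z w y ≤ z :=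
  fun _ _ h => h.1

theorem le_jn {z : Setoid (Fin n)} (w : Fin n) {y : Setoid (Fin n)} (h : y ≤ z) :
    y ≤ jn z w y := fun _ _ h' => ⟨h h', fun _ => h'⟩

theorem cls_jn_of {z : Setoid (Fin n)} {w : Fin n} {y : Setoid (Fin n)} (h : y ≤ z) {x : Fin n}
    (hx : z w x) : cls (jn z w y) x = cls y x := by
  ext u
  exact ⟨fun hu => hu.2 hx, fun hu => ⟨h hu, fun _ => hu⟩⟩

theorem cls_jn_of_not {z : Setoid (Fin n)} {w : Fin n} {y : Setoid (Fin n)} {x : Fin n}
    (hx : ¬ z w x) : cls (jn z w y) x = cls z x := by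
  ext u
  exact ⟨fun hu => hu.1, fun hu => ⟨hu, fun h => absurd h hx⟩⟩

/-- The lower part of the link, first case. -/
theorem built_low_coll {k : ℕ} (hk1 : k ≠ 1) {W : Set (Fin n)} {w : Fin n} (hw : w ∈ W)
    (hW : W.ncard ≠ k) (hk : 0 < k) {z : Setoid (Fin n)} (hz : z ∈ U k W)
    (hcz : (cls z w).ncard = W.ncard + k) {a b : Fin n} (hab : z a b) (hne : a ≠ b)
    (hwa : ¬ z w a) [DecidableEq (Setoid (Fin n))] :
    Built 0 0 (chains {y | y ∈ Y k W w ∧ y < z}) := by
  have instF : Finite (Setoid (Fin n)) := instFiniteSetoid n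
  have hWz : W ⊆ cls z w := subset_cls hw hz.1.le
  have haW : a ∉ W := fun h => hwa (hWz h)
  have hbW : b ∉ W := fun h => hwa (z.trans' (hWz h) (z.symm' hab))
  have hww : z w w := z.refl' w
  -- the partition `jn z w y` is in the set
  have key : ∀ y, sg W ≤ y → y ≤ z → NoK k y → (cls y w).ncard ≠ W.ncard + k →
      jn z w y ∈ Y k W w ∧ jn z w y < z := by
    intro y hy hyz hyk hyc
    have h1 : ¬ (jn z w y) ⊓ two W ≤ sg W := by
      intro h
      have h2 : ((jn z w y) ⊓ two W) a b :=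
        ⟨⟨hab, fun h => absurd h hwa⟩, ⟨fun h => absurd h haW, fun h => absurd h hbW⟩⟩
      rcases (sg_apply W a b).1 (h h2) with h' | h'
      · exact hne h'
      · exact haW h'.1
    have h2 : (cls (jn z w y) w).ncard ≠ W.ncard + k := by
      rw [cls_jn_of hyz hww]; exact hyc
    have h3 : sg W ≤ jn z w y := hy.trans (le_jn w hyz)
    refine ⟨⟨⟨lt_of_le_of_ne h3 fun h => ?_, lt_of_le_of_lt (jn_le z w y) hz.2.1, ?_⟩, h1, h2⟩, ?_⟩
    · apply h1
      rw [← h]
      exact inf_le_left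
    · intro x
      by_cases hx : z w x
      · rw [cls_jn_of hyz hx]; exact hyk x
      · rw [cls_jn_of_not hx]; exact hz.2.2 x
    · refine lt_of_le_of_ne (jn_le z w y) fun h => h2 ?_
      rw [h]; exact hcz
  have hbot : jn z w (sg W) ∈ Y k W w ∧ jn z w (sg W) < z := by
    refine key (sg W) (le_refl _) hz.1.le ?_ ?_
    · intro x
      by_cases hx : x ∈ W
      · rw [cls_sg hx]; exact hW
      · rw [cls_sg_of_notMem hx, Set.ncard_singleton]; exact hk1.symm
    · rw [cls_sg hw]; omega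
  refine Built.quillen' (S' := {y | (y ∈ Y k W w ∧ y < z) ∧ jn z w (sg W) ≤ y})
    (fun y hy => hy.1) ?_ (built_of_min 0 (x := jn z w (sg W)) ?_ ?_)
  · intro y hy hy'
    have hyn : ¬ jn z w (sg W) ≤ y := fun h => hy' ⟨hy, h⟩
    have h1 := key y hy.1.1.1.le hy.2.le hy.1.1.2.2 hy.1.2.2
    have h2 : jn z w (sg W) ≤ jn z w y := by
      rintro u v ⟨h3, h4⟩
      exact ⟨h3, fun h => hy.1.1.1.le (h4 h)⟩
    refine ⟨0, built_of_min 0 (x := jn z w y) ⟨⟨h1, h2⟩, ?_⟩ ?_⟩
    · refine lt_of_le_of_ne (le_jn w hy.2.le) fun h => hyn ?_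
      rw [h]
      exact h2
    · rintro u ⟨⟨_, hu2⟩, hyu⟩
      rintro p q ⟨h3, h4⟩
      by_cases hp : z w p
      · exact hyu.le (h4 hp)
      · exact hu2 ⟨h3, fun h => absurd h hp⟩
  · exact ⟨hbot, le_refl _⟩
  · rintro u ⟨_, hu⟩
    exact hu

/-- The lower part of the link, second case. -/
theorem built_low_sph {k : ℕ} (hk : 2 ≤ k) {W A : Set (Fin n)} {w : Fin n} (hw : w ∈ W)
    (hW : W.ncard ≠ k) (hWA : W ⊆ A) (hA : A.ncard = W.ncard + k) (hAtop : A ≠ Set.univ)
    [DecidableEq (Setoid (Fin n))] :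
    ∃ N, 1 ≤ N ∧ Built (k - 2) N (chains {y | y ∈ Y k W w ∧ y < sg A}) := by
  have instF : Finite (Setoid (Fin n)) := instFiniteSetoid n
  have hwA : w ∈ A := hWA hw
  set e := mergeSet (sg W) (A \ W) with he
  have hcardAW : (A \ W).ncard + W.ncard = A.ncard := Set.ncard_sdiff_add_ncard_of_subset hWA
  have hAWk : (A \ W).ncard = k := by omega
  have hAWne : (A \ W).Nonempty := by
    rw [← Set.ncard_pos (Set.toFinite _)]; omega
  have hsing : ∀ b ∈ A \ W, ∀ x, sg W b x → x = b := by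
    intro b hb x hx
    rcases (sg_apply W b x).1 hx with h | h
    · exact h.symm
    · exact absurd h.1 hb.2
  have he_apply : ∀ x y, e x y ↔ x = y ∨ (x ∈ W ∧ y ∈ W) ∨ (x ∈ A \ W ∧ y ∈ A \ W) := by
    intro x y
    rw [he, mergeSet_apply, sg_apply]
    have h1 : ∀ x, (∃ b ∈ A \ W, sg W x b) ↔ x ∈ A \ W := by
      intro x
      constructor
      · rintro ⟨b, hb, h⟩
        have := hsing b hb x ((sg W).symm' h)
        rw [this]; exact hb
      · exact fun h => ⟨x, h, (sg W).refl' x⟩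
    rw [h1, h1]
    tauto
  have hee : sg A ⊓ two W = e := by
    ext x y
    show (sg A x y ∧ (x ∈ W ↔ y ∈ W)) ↔ e x y
    rw [he_apply, sg_apply]
    constructor
    · rintro ⟨h | ⟨h1, h2⟩, h3⟩
      · exact Or.inl h
      · by_cases hx : x ∈ W
        · exact Or.inr (Or.inl ⟨hx, h3.1 hx⟩)
        · exact Or.inr (Or.inr ⟨⟨h1, hx⟩, ⟨h2, fun h => hx (h3.2 h)⟩⟩)
    · rintro (h | ⟨h1, h2⟩ | ⟨h1, h2⟩)
      · subst h
        exact ⟨Or.inl rfl, Iff.rfl⟩
      · exact ⟨Or.inr ⟨hWA h1, hWA h2⟩, ⟨fun _ => h2, fun _ => h1⟩⟩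
      · exact ⟨Or.inr ⟨h1.1, h2.1⟩, ⟨fun h => absurd h h1.2, fun h => absurd h h2.2⟩⟩
  have hnc : nc (sg W) = nc e + (k - 2) + 1 := by
    have := nc_mergeSet' (sg W) (A \ W) hAWne hsing
    rw [← he] at this
    omega
  have hWe : sg W < e := by
    refine lt_of_le_of_ne (le_mergeSet _ _) fun h => ?_
    rw [← h] at hnc
    omega
  have heA : e ≤ sg A := by rw [← hee]; exact inf_le_left
  have heW : e ≤ two W := by rw [← hee]; exact inf_le_right
  have hAtop' : sg A < ⊤ := by
    refine lt_of_le_of_ne le_top fun h => ?_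
    obtain ⟨u, hu⟩ := (Set.ne_univ_iff_exists_notMem A).1 hAtop
    have h1 : sg A w u := by rw [h]; trivial
    rcases (sg_apply A w u).1 h1 with h' | h'
    · subst h'; exact hu hwA
    · exact hu h'.2
  -- the class of elements of `A \ W`
  have hcls_e : ∀ x ∈ A \ W, cls e x = A \ W := by
    intro x hx
    ext y
    rw [mem_cls, he_apply]
    constructor
    · rintro (rfl | ⟨h1, _⟩ | ⟨_, h2⟩)
      · exact hx
      · exact absurd h1 hx.2
      · exact h2
    · exact fun h => Or.inr (Or.inr ⟨hx, h⟩)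
  have hnoKe : ∀ y, NoK k y → y ≠ e := by
    rintro y hy rfl
    obtain ⟨x, hx⟩ := hAWne
    exact hy x (by rw [hcls_e x hx]; exact hAWk)
  obtain ⟨N, hN1, hN2⟩ := built_Ioo (k - 2) (sg W) e hWe hnc
  refine ⟨N, hN1, ?_⟩
  have hsub : Set.Ioo (sg W) e ⊆ {y | y ∈ Y k W w ∧ y < sg A} := by
    rintro y ⟨h1, h2⟩
    have hyA : y < sg A := lt_of_lt_of_le h2 heA
    have hyk : NoK k y := by
      intro x hxk
      by_cases hx : x ∈ W
      · have : cls y x = W := by
          apply Set.Subset.antisymm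
          · intro u hu
            have : two W x u := heW (h2.le hu)
            exact this.1 hx
          · intro u hu
            exact h1.le ((sg_apply W x u).2 (Or.inr ⟨hx, hu⟩))
        rw [this] at hxk
        exact hW hxk
      · by_cases hxA : x ∈ A
        · have hsub' : cls y x ⊆ A \ W := by
            rw [← hcls_e x ⟨hxA, hx⟩]
            exact fun u hu => h2.le hu
          have heq : cls y x = A \ W :=
            Set.eq_of_subset_of_ncard_le hsub' (by omega) (Set.toFinite _)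
          apply h2.not_ge
          intro u v huv
          rcases (he_apply u v).1 huv with rfl | h' | ⟨h3, h4⟩
          · exact y.refl' _
          · exact h1.le ((sg_apply W u v).2 (Or.inr h'))
          · rw [← heq] at h3 h4
            exact y.trans' (y.symm' h3) h4
        · have : cls y x = {x} := by
            ext u
            constructor
            · intro hu
              have := (sg_apply A x u).1 (hyA.le hu)
              rcases this with h | h
              · exact h.symm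
              · exact absurd h.1 hxA
            · rintro rfl
              exact y.refl' _
          rw [this, Set.ncard_singleton] at hxk
          omega
    exact ⟨mem_Y_of_le (by omega) hw ⟨h1, lt_trans hyA hAtop', hyk⟩ (h2.le.trans heW), hyA⟩
  refine Built.quillen hsub ?_ hN2
  rintro z ⟨hzY, hzA⟩ hz'
  have hinf := inf_mem_Y (by omega) hw hW hzY
  have hle : z ⊓ two W ≤ e := by
    rw [← hee]
    exact inf_le_inf_right _ hzA.le
  have hlt : z ⊓ two W < e := lt_of_le_of_ne hle (hnoKe _ hinf.1.2.2)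
  refine ⟨0, built_of_max 0 (x := z ⊓ two W) ⟨⟨hinf.1.1, hlt⟩, ?_⟩ ?_⟩
  · refine lt_of_le_of_ne inf_le_left fun h => ?_
    apply hz'
    rw [← h]
    exact ⟨hinf.1.1, hlt⟩
  · rintro u ⟨hu, huz⟩
    exact le_inf huz.le (hu.2.le.trans heW)

/-- The upper part of the link. -/
theorem built_up_sph {k : ℕ} (hk : 3 ≤ k) (hn : n = 2 * k + 1) {W A : Set (Fin n)} {w : Fin n}
    (hw : w ∈ W) (hW : W.ncard + 1 ≤ k) (hWA : W ⊆ A) (hA : A.ncard = W.ncard + k)
    [DecidableEq (Setoid (Fin n))] :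
    ∃ N, 1 ≤ N ∧ Built (k - W.ncard) N (chains {y | y ∈ U k W ∧ sg A < y}) := by
  have instF : Finite (Setoid (Fin n)) := instFiniteSetoid n
  have hwA : w ∈ A := hWA hw
  have hn0 : 0 < n := by omega
  have htop : nc (⊤ : Setoid (Fin n)) = 1 := nc_top hn0
  have hW1 : 1 ≤ W.ncard := by
    rw [Nat.one_le_iff_ne_zero, ← Nat.pos_iff_ne_zero, Set.ncard_pos (Set.toFinite _)]
    exact ⟨w, hw⟩
  have hncA : nc (sg A) + A.ncard = n + 1 := nc_sg ⟨w, hwA⟩
  have hcompl : A.ncard + Aᶜ.ncard = n := by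
    rw [Set.ncard_add_ncard_compl, Nat.card_eq_fintype_card, Fintype.card_fin]
  have hsgWA : sg W ≤ sg A := sg_le fun x hx y hy => (sg_apply A x y).2 (Or.inr ⟨hWA hx, hWA hy⟩)
  have hWAne : sg W ≠ sg A := by
    intro h
    have h1 := nc_sg (W := W) ⟨w, hw⟩
    rw [h] at h1
    omega
  have hWAlt : sg W < sg A := lt_of_le_of_ne hsgWA hWAne
  have hAtop : sg A < ⊤ := by
    refine lt_of_le_of_ne le_top fun h => ?_
    rw [h, htop] at hncA
    omega
  -- block sizes above `sg A`
  have hsize1 : ∀ u, sg A < u → ∀ x, u w x → (cls u x).ncard ≠ k := by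
    intro u hu x hx
    have : A ⊆ cls u x := fun y hy =>
      u.trans' (u.symm' hx) (hu.le ((sg_apply A w y).2 (Or.inr ⟨hwA, hy⟩)))
    have := Set.ncard_le_ncard this (Set.toFinite _)
    omega
  have hsize2 : ∀ u, sg A < u → ∀ x, ¬ u w x → cls u x ⊆ Aᶜ := by
    intro u hu x hx y hy hyA
    exact hx (u.trans' (hu.le ((sg_apply A w y).2 (Or.inr ⟨hwA, hyA⟩))) (u.symm' hy))
  by_cases hW2 : 2 ≤ W.ncard
  · have : {y | y ∈ U k W ∧ sg A < y} = Set.Ioo (sg A) ⊤ := by
      ext u
      constructor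
      · rintro ⟨h1, h2⟩
        exact ⟨h2, h1.2.1⟩
      · rintro ⟨h1, h2⟩
        refine ⟨⟨lt_trans hWAlt h1, h2, fun x => ?_⟩, h1⟩
        by_cases hx : u w x
        · exact hsize1 u h1 x hx
        · have := Set.ncard_le_ncard (hsize2 u h1 x hx) (Set.toFinite _)
          omega
    rw [this]
    exact built_Ioo (k - W.ncard) (sg A) ⊤ hAtop (by omega)
  · have hW1' : W.ncard = 1 := by omega
    have : {y | y ∈ U k W ∧ sg A < y} = Set.Ioo (sg A) ⊤ \ {two (cls (sg A) w)} := by
      rw [cls_sg hwA]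
      ext u
      constructor
      · rintro ⟨h1, h2⟩
        refine ⟨⟨h2, h1.2.1⟩, ?_⟩
        intro h
        rw [Set.mem_singleton_iff] at h
        subst h
        obtain ⟨x, hx⟩ : (Aᶜ).Nonempty := by
          rw [← Set.ncard_pos (Set.toFinite _)]; omega
        apply h1.2.2 x
        rw [cls_two_of_notMem hx]
        omega
      · rintro ⟨⟨h1, h2⟩, h3⟩
        refine ⟨⟨lt_trans hWAlt h1, h2, fun x => ?_⟩, h1⟩
        by_cases hx : u w x
        · exact hsize1 u h1 x hx
        · intro hxk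
          apply h3
          rw [Set.mem_singleton_iff]
          have hsub := hsize2 u h1 x hx
          have heq : cls u x = Aᶜ := Set.eq_of_subset_of_ncard_le hsub (by omega) (Set.toFinite _)
          apply le_antisymm
          · intro p q hpq
            have aux : ∀ p q, u p q → p ∈ A → q ∈ A := by
              intro p q hpq hp
              by_contra hq
              have hq' : q ∈ cls u x := by rw [heq]; exact hq
              have hp' : p ∈ cls u x := u.trans' hq' (u.symm' hpq)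
              rw [heq] at hp'
              exact hp' hp
            exact ⟨aux p q hpq, aux q p (u.symm' hpq)⟩
          · intro p q hpq
            by_cases hp : p ∈ A
            · have hq : q ∈ A := (hpq : p ∈ A ↔ q ∈ A).1 hp
              exact h1.le ((sg_apply A p q).2 (Or.inr ⟨hp, hq⟩))
            · have hq : q ∉ A := fun h => hp ((hpq : p ∈ A ↔ q ∈ A).2 h)
              have hp' : p ∈ cls u x := by rw [heq]; exact hp
              have hq' : q ∈ cls u x := by rw [heq]; exact hq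
              exact u.trans' (u.symm' hp') hq'
    rw [this]
    exact built_Ioo_sdiff hn0 (k - W.ncard) (sg A) w (by omega) (by omega)

/-- Partitions obtained by merging the block `W` with one more element. -/
theorem merge_one {k : ℕ} {W : Set (Fin n)} {w : Fin n} (hw : w ∈ W) {z : Setoid (Fin n)}
    (hz : z ∈ U k W) (h : z ⊓ two W ≤ sg W) :
    ∃ c, c ∉ W ∧ z = sg (insert c W) ∧ W.ncard + 1 ≠ k ∧ nc z + 1 = nc (sg W) := by
  have h' : z ⊓ two (cls (sg W) w) ≤ sg W := by rw [cls_sg hw]; exact h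
  obtain ⟨c, _, hc2, hzc⟩ := exists_eq_mrg hz.1 h'
  have hcW : c ∉ W := fun hc => hc2 ((sg_apply W w c).2 (Or.inr ⟨hw, hc⟩))
  have hzc' : z = sg (insert c W) := by rw [hzc, mrg_sg hw hcW]
  refine ⟨c, hcW, hzc', ?_, ?_⟩
  · intro hk
    apply hz.2.2 w
    rw [hzc', cls_sg (Set.mem_insert_of_mem c hw), Set.ncard_insert_of_notMem hcW (Set.toFinite _)]
    exact hk
  · rw [hzc]
    exact nc_mrg _ hc2

theorem built_U {k : ℕ} (hk : 3 ≤ k) (hn : n = 2 * k + 1) [DecidableEq (Setoid (Fin n))] (j : ℕ) :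
    ∀ (W : Set (Fin n)), W.Nonempty → W.ncard + j + 1 = k →
      ∃ N, 1 ≤ N ∧ Built (2 * k - 1 - W.ncard) N (chains (U k W)) := by
  have instF : Finite (Setoid (Fin n)) := instFiniteSetoid n
  induction j using Nat.strong_induction_on with
  | _ j ih =>
  intro W hWne hj
  obtain ⟨w, hw⟩ := hWne
  have hW1 : 1 ≤ W.ncard := by
    rw [Nat.one_le_iff_ne_zero, ← Nat.pos_iff_ne_zero, Set.ncard_pos (Set.toFinite _)]
    exact ⟨w, hw⟩
  have hn0 : 0 < n := by omega
  have htop : nc (⊤ : Setoid (Fin n)) = 1 := nc_top hn0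
  have hWk : W.ncard ≠ k := by omega
  have hcompl : W.ncard + Wᶜ.ncard = n := by
    rw [Set.ncard_add_ncard_compl, Nat.card_eq_fintype_card, Fintype.card_fin]
  have hncx : nc (sg W) + W.ncard = n + 1 := nc_sg ⟨w, hw⟩
  have hY := built_Y (by omega : 0 < k) hw hWk (by omega) (by omega) (2 * k - 1 - W.ncard)
  have h2fin : {z | z ∈ U k W ∧ ¬ z ⊓ two W ≤ sg W ∧ (cls z w).ncard = W.ncard + k}.Finite :=
    Set.toFinite _
  set T2 := h2fin.toFinset with hT2
  have hT2mem : ∀ z, z ∈ T2 ↔ z ∈ U k W ∧ ¬ z ⊓ two W ≤ sg W ∧ (cls z w).ncard = W.ncard + k :=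
    fun z => h2fin.mem_toFinset
  have h1fin : {z | z ∈ U k W ∧ z ⊓ two W ≤ sg W}.Finite := Set.toFinite _
  set T1 := h1fin.toFinset with hT1
  have hT1mem : ∀ z, z ∈ T1 ↔ z ∈ U k W ∧ z ⊓ two W ≤ sg W := fun z => h1fin.mem_toFinset
  -- the second layer
  have hup : ∀ z, z ∈ U k W → {y | (y ∈ Y k W w ∨ y ∈ T2) ∧ z < y} = {y | y ∈ U k W ∧ z < y} := by
    intro z hz
    ext y
    constructor
    · rintro ⟨h1 | h1, h2⟩
      · exact ⟨h1.1, h2⟩
      · exact ⟨((hT2mem y).1 h1).1, h2⟩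
    · rintro ⟨h1, h2⟩
      refine ⟨?_, h2⟩
      by_cases h3 : y ⊓ two W ≤ sg W
      · obtain ⟨c, _, _, _, h4⟩ := merge_one hw h1 h3
        have h5 := nc_lt_of_lt hz.1
        have h6 := nc_lt_of_lt h2
        omega
      · by_cases h4 : (cls y w).ncard = W.ncard + k
        · exact Or.inr ((hT2mem y).2 ⟨h1, h3, h4⟩)
        · exact Or.inl ⟨h1, h3, h4⟩
  have hex : ∀ z : Setoid (Fin n), ∃ c : ℕ, z ∈ T2 → ((z = sg (cls z w) → 1 ≤ c) ∧
      Built (2 * k - 2 - W.ncard) c
        (chains ({y | y ∈ Y k W w ∧ y < z} ∪ {y | (y ∈ Y k W w ∨ y ∈ T2) ∧ z < y}))) := by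
    intro z
    by_cases hz : z ∈ T2
    · have hz' := (hT2mem z).1 hz
      have hWz : W ⊆ cls z w := subset_cls hw hz'.1.1.le
      have hlt : ∀ a ∈ {y | y ∈ Y k W w ∧ y < z}, ∀ b ∈ {y | y ∈ U k W ∧ z < y}, a < b :=
        fun a ha b hb => lt_trans ha.2 hb.2
      rw [hup z hz'.1, chains_union hlt]
      by_cases hρ : ∃ a b, z a b ∧ a ≠ b ∧ ¬ z w a
      · obtain ⟨a, b, hab, hne, hwa⟩ := hρ
        refine ⟨0, fun _ => ⟨fun h => ?_, ?_⟩⟩
        · exfalso
          rw [h] at hab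
          rcases (sg_apply _ a b).1 hab with h' | h'
          · exact hne h'
          · exact hwa h'.1
        · exact (built_low_coll (by omega) hw hWk (by omega) hz'.1 hz'.2.2 hab hne hwa).star_coll
            (chains_downClosed _) (disj_chains hlt) _
      · push Not at hρ
        have hzA : z = sg (cls z w) := by
          apply le_antisymm
          · intro a b hab
            rw [sg_apply]
            by_cases h : z w a
            · exact Or.inr ⟨h, z.trans' h hab⟩
            · left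
              by_contra hne
              exact h (hρ a b hab hne)
          · exact sg_le fun x hx y hy => z.trans' (z.symm' hx) hy
        have hAtop : cls z w ≠ Set.univ := by
          intro h
          have h1 := hz'.2.2
          rw [h, Set.ncard_univ, Nat.card_eq_fintype_card, Fintype.card_fin] at h1
          omega
        obtain ⟨N1, h11, h12⟩ := built_low_sph (by omega : 2 ≤ k) hw hWk hWz hz'.2.2 hAtop
        obtain ⟨N2, h21, h22⟩ := built_up_sph hk hn hw (by omega) hWz hz'.2.2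
        rw [← hzA] at h12 h22
        refine ⟨N1 * N2, fun _ => ⟨fun _ => Nat.mul_pos h11 h21, ?_⟩⟩
        exact (h12.star h22 (disj_chains hlt)).cast (by omega) rfl rfl
    · exact ⟨0, fun h => absurd h hz⟩
  choose c2 hc2 using hex
  have key2 := hY.add_set (b := 2 * k - 2 - W.ncard) (Y k W w) c2 T2
    (fun z hz h => h.2.2 ((hT2mem z).1 hz).2.2) (fun z hz => (hc2 z hz).2) (Or.inr (by omega))
  have hpos : 1 ≤ ∑ z ∈ T2, c2 z := by
    obtain ⟨A, hWA, -, hA⟩ := Set.exists_subsuperset_card_eq (Set.subset_univ W)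
      (by omega : W.ncard ≤ W.ncard + k) (by
        rw [Set.ncard_univ, Nat.card_eq_fintype_card, Fintype.card_fin]; omega)
    have hwA : w ∈ A := hWA hw
    have hncA : nc (sg A) + A.ncard = n + 1 := nc_sg ⟨w, hwA⟩
    have hmem : sg A ∈ T2 := by
      rw [hT2mem]
      refine ⟨⟨lt_of_le_of_ne ?_ fun h => ?_, lt_of_le_of_ne le_top fun h => ?_, ?_⟩, ?_, ?_⟩
      · exact sg_le fun x hx y hy => (sg_apply A x y).2 (Or.inr ⟨hWA hx, hWA hy⟩)
      · rw [h] at hncx; omega
      · rw [h, htop] at hncA; omega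
      · intro x
        by_cases hx : x ∈ A
        · rw [cls_sg hx]; omega
        · rw [cls_sg_of_notMem hx, Set.ncard_singleton]; omega
      · intro h
        have h1 : (A \ W).ncard + W.ncard = A.ncard := Set.ncard_sdiff_add_ncard_of_subset hWA
        obtain ⟨a, ha, b, hb, hab⟩ := (Set.one_lt_ncard (Set.toFinite _)).1
          (by omega : 1 < (A \ W).ncard)
        have h2 : (sg A ⊓ two W) a b :=
          ⟨(sg_apply A a b).2 (Or.inr ⟨ha.1, hb.1⟩),
            ⟨fun h => absurd h ha.2, fun h => absurd h hb.2⟩⟩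
        rcases (sg_apply W a b).1 (h h2) with h' | h'
        · exact hab h'
        · exact ha.2 h'.1
      · rw [cls_sg hwA]; exact hA
    have h1 : c2 (sg A) ≤ ∑ z ∈ T2, c2 z :=
      Finset.single_le_sum (f := c2) (fun _ _ => Nat.zero_le _) hmem
    have h2 := (hc2 _ hmem).1 (by rw [cls_sg hwA])
    omega
  -- the atoms
  have hex1 : ∀ z : Setoid (Fin n), ∃ c : ℕ, z ∈ T1 →
      Built (2 * k - 2 - W.ncard) c
        (chains ({y | y ∈ Y k W w ∪ (T2 : Set (Setoid (Fin n))) ∧ y < z} ∪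
          {y | (y ∈ Y k W w ∪ (T2 : Set (Setoid (Fin n))) ∨ y ∈ T1) ∧ z < y})) := by
    intro z
    by_cases hz : z ∈ T1
    · have hz' := (hT1mem z).1 hz
      obtain ⟨c, hcW, hzc, hck, hznc⟩ := merge_one hw hz'.1 hz'.2
      have hcard : (insert c W).ncard = W.ncard + 1 :=
        Set.ncard_insert_of_notMem hcW (Set.toFinite _)
      obtain ⟨N, _, hN2⟩ := ih (j - 1) (by omega) (insert c W) ⟨c, Set.mem_insert _ _⟩ (by omega)
      refine ⟨N, fun _ => hN2.cast (by omega) rfl ?_⟩
      congr 1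
      ext y
      constructor
      · rintro ⟨h1, h2, h3⟩
        rw [← hzc] at h1
        refine Or.inr ⟨?_, h1⟩
        have hyU : y ∈ U k W := ⟨lt_trans hz'.1.1 h1, h2, h3⟩
        by_cases h4 : y ⊓ two W ≤ sg W
        · exact Or.inr ((hT1mem y).2 ⟨hyU, h4⟩)
        · left
          by_cases h5 : (cls y w).ncard = W.ncard + k
          · exact Or.inr ((hT2mem y).2 ⟨hyU, h4, h5⟩)
          · exact Or.inl ⟨hyU, h4, h5⟩
      · rintro (⟨h1, h2⟩ | ⟨h1, h2⟩)
        · exfalso
          have h3 : sg W < y := by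
            rcases h1 with h1 | h1
            · exact h1.1.1
            · exact ((hT2mem y).1 h1).1.1
          have h4 := nc_lt_of_lt h3
          have h5 := nc_lt_of_lt h2
          omega
        · have h3 : y ∈ U k W := by
            rcases h1 with (h1 | h1) | h1
            · exact h1.1
            · exact ((hT2mem y).1 h1).1
            · exact ((hT1mem y).1 h1).1
          exact ⟨by rw [← hzc]; exact h2, h3.2.1, h3.2.2⟩
    · exact ⟨0, fun h => absurd h hz⟩
  choose c1 hc1 using hex1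
  have key1 := key2.add_set (b := 2 * k - 2 - W.ncard) (Y k W w ∪ (T2 : Set (Setoid (Fin n)))) c1 T1
    ?_ (fun z hz => hc1 z hz) (Or.inr (by omega))
  · have hfinal : Y k W w ∪ (T2 : Set (Setoid (Fin n))) ∪ (T1 : Set (Setoid (Fin n))) = U k W := by
      ext y
      simp only [Set.mem_union, Finset.mem_coe, hT2mem, hT1mem]
      constructor
      · rintro ((h | h) | h)
        · exact h.1
        · exact h.1
        · exact h.1
      · intro h
        by_cases h4 : y ⊓ two W ≤ sg W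
        · exact Or.inr ⟨h, h4⟩
        · left
          by_cases h5 : (cls y w).ncard = W.ncard + k
          · exact Or.inr ⟨h, h4, h5⟩
          · exact Or.inl ⟨h, h4, h5⟩
    rw [hfinal] at key1
    exact ⟨_, by omega, key1⟩
  · rintro z hz (h | h)
    · exact h.2.1 ((hT1mem z).1 hz).2
    · exact ((hT2mem z).1 h).2.1 ((hT1mem z).1 hz).2

end Pool.Agent.Lib.MP_53e7c4_co
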