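import Mathlib
import Pool.Agent.Lib.MP_53e7c4_co.Geo

/-!
Homotopy extension for facets attached to a contractible complex, by an explicit formula.
-/

namespace Pool.Agent.Lib.MP_53e7c4_co

open scoped ContinuousMap

variable {V : Type} [Fintype V] [DecidableEq V]

namespace Deform

/-- `card s` times the smallest coordinate of `x` on `s` -/
noncomputable def dl (s : Finset V) (x : V → ℝ) : ℝ :=
  if h : s.Nonempty then (s.card : ℝ) * s.inf' h x else 0

/-- the barycentre of `s` -/
noncomputable def bary (s : Finset V) : V → ℝ := fun v => if v ∈ s then (s.card : ℝ)⁻¹ else 0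

omit [Fintype V] [DecidableEq V] in
theorem dl_continuous (s : Finset V) : Continuous (dl s) := by
  unfold dl
  by_cases h : s.Nonempty
  · simp only [dif_pos h]
    refine continuous_const.mul ?_
    exact Continuous.finset_inf'_apply h fun v _ => continuous_apply v
  · simp only [dif_neg h]; exact continuous_const

omit [Fintype V] [DecidableEq V] in
theorem dl_nonneg (s : Finset V) {x : V → ℝ} (hx : ∀ v, 0 ≤ x v) : 0 ≤ dl s x := by
  unfold dl
  split_ifs with h
  · have : 0 ≤ s.inf' h x := Finset.le_inf' h x fun v _ => hx v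
    positivity
  · exact le_rfl

omit [Fintype V] [DecidableEq V] in
theorem card_pos' {s : Finset V} (h : s.Nonempty) : (0 : ℝ) < s.card := by
  exact_mod_cast h.card_pos

omit [Fintype V] [DecidableEq V] in
theorem dl_mul_le {s : Finset V} (h : s.Nonempty) (x : V → ℝ) {v : V} (hv : v ∈ s) :
    dl s x * (s.card : ℝ)⁻¹ ≤ x v := by
  have h1 := card_pos' h
  unfold dl
  rw [dif_pos h]
  have h2 : s.inf' h x ≤ x v := Finset.inf'_le x hv
  calc (s.card : ℝ) * s.inf' h x * (s.card : ℝ)⁻¹ = s.inf' h x := by field_simp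
    _ ≤ x v := h2

omit [Fintype V] [DecidableEq V] in
theorem exists_dl_eq {s : Finset V} (h : s.Nonempty) (x : V → ℝ) :
    ∃ v ∈ s, x v = dl s x * (s.card : ℝ)⁻¹ := by
  have h1 := card_pos' h
  obtain ⟨v, hv, he⟩ := Finset.exists_mem_eq_inf' h x
  refine ⟨v, hv, ?_⟩
  unfold dl
  rw [dif_pos h, ← he]
  field_simp

omit [Fintype V] [DecidableEq V] in
theorem dl_pos {s : Finset V} (h : s.Nonempty) {x : V → ℝ} (hx : ∀ v ∈ s, 0 < x v) :
    0 < dl s x := by
  have h1 := card_pos' h
  unfold dl
  rw [dif_pos h]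
  have : 0 < s.inf' h x := (Finset.lt_inf'_iff h).2 hx
  positivity

omit [Fintype V] [DecidableEq V] in
theorem pos_of_dl_pos {s : Finset V} {x : V → ℝ} (h : 0 < dl s x) : ∀ v ∈ s, 0 < x v := by
  intro v hv
  have hs : s.Nonempty := ⟨v, hv⟩
  have h1 := card_pos' hs
  have h2 := dl_mul_le hs x hv
  have : 0 < dl s x * (s.card : ℝ)⁻¹ := by positivity
  linarith

theorem sum_bary {s : Finset V} (h : s.Nonempty) : ∑ v, bary s v = 1 := by
  have h1 := card_pos' h
  unfold bary
  rw [Finset.sum_ite_mem, Finset.univ_inter, Finset.sum_const, nsmul_eq_mul]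
  field_simp

section
variable {N : ℕ} (s : Fin N → Finset V)

/-- total weight of the barycentres -/
noncomputable def del (x : V → ℝ) : ℝ := ∑ i, dl (s i) x

/-- barycentric part -/
noncomputable def Dv (x : V → ℝ) : V → ℝ := ∑ i, dl (s i) x • bary (s i)

/-- the barycentric part at time `t` -/
noncomputable def Cv (t : ℝ) (x : V → ℝ) : V → ℝ :=
  ∑ i, (max 0 (2 * dl (s i) x - t) / (2 - t)) • bary (s i)

/-- the boundary point -/
noncomputable def yv (x : V → ℝ) : V → ℝ := (1 - del s x)⁻¹ • (x - Dv s x)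

omit [Fintype V] in
theorem del_continuous : Continuous (del s) :=
  continuous_finsetSum _ fun i _ => dl_continuous (s i)

omit [Fintype V] in
theorem Dv_continuous : Continuous (Dv s) :=
  continuous_finsetSum _ fun i _ => (dl_continuous (s i)).smul continuous_const

variable {s}
variable {K : Set (Finset V)}

theorem dichotomy (hK : DownClosed K) {d : ℕ}
    (hs : Function.Injective s) (hcard : ∀ i, (s i).card = d + 1)
    (hsK : ∀ i, s i ∉ K) {x : V → ℝ} (hx : x ∈ geo (K ∪ Set.range s)) :
    (supp x ∈ K ∧ ∀ i, dl (s i) x = 0) ∨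
      ∃ i, supp x = s i ∧ 0 < dl (s i) x ∧ ∀ j, j ≠ i → dl (s j) x = 0 := by
  obtain ⟨h0, h1, h2⟩ := hx
  have hne : ∀ i, (s i).Nonempty := fun i => Finset.card_pos.1 (by rw [hcard]; omega)
  have hsub : ∀ i, dl (s i) x ≠ 0 → s i ⊆ supp x := by
    intro i hi v hv
    have := pos_of_dl_pos (lt_of_le_of_ne (dl_nonneg _ h0) (Ne.symm hi)) v hv
    rw [mem_supp]; exact this.ne'
  rcases h2 with h2 | ⟨i, hi⟩
  · left
    refine ⟨h2, fun i => ?_⟩
    by_contra hc
    exact hsK i (hK _ h2 _ (hsub i hc))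
  · right
    refine ⟨i, hi.symm, dl_pos (hne i) fun v hv => ?_, fun j hj => ?_⟩
    · rw [hi, mem_supp] at hv
      exact lt_of_le_of_ne (h0 v) (Ne.symm hv)
    · by_contra hc
      have h3 := hsub j hc
      rw [← hi] at h3
      have h4 : s j = s i := Finset.eq_of_subset_of_card_le h3 (by rw [hcard, hcard])
      exact hj (hs h4)

theorem del_Dv_of_zero {x : V → ℝ} (h : ∀ i, dl (s i) x = 0) : del s x = 0 ∧ Dv s x = 0 := by
  constructor
  · unfold del; exact Finset.sum_eq_zero fun i _ => h i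
  · unfold Dv; exact Finset.sum_eq_zero fun i _ => by rw [h i, zero_smul]

theorem del_Dv_of_single {x : V → ℝ} {i : Fin N} (h : ∀ j, j ≠ i → dl (s j) x = 0) :
    del s x = dl (s i) x ∧ Dv s x = dl (s i) x • bary (s i) := by
  constructor
  · unfold del; exact Finset.sum_eq_single i (fun j _ hj => h j hj) (by simp)
  · unfold Dv; exact Finset.sum_eq_single i (fun j _ hj => by rw [h j hj, zero_smul]) (by simp)

theorem Cv_of_single {x : V → ℝ} {t : ℝ} (ht : 0 ≤ t) {i : Fin N}
    (h : ∀ j, j ≠ i → dl (s j) x = 0) :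
    Cv s t x = (max 0 (2 * dl (s i) x - t) / (2 - t)) • bary (s i) := by
  unfold Cv
  refine Finset.sum_eq_single i (fun j _ hj => ?_) (by simp)
  rw [h j hj, max_eq_left (by linarith), zero_div, zero_smul]

theorem Cv_of_zero {x : V → ℝ} {t : ℝ} (ht : 0 ≤ t) (h : ∀ i, dl (s i) x = 0) :
    Cv s t x = 0 := by
  unfold Cv
  refine Finset.sum_eq_zero fun j _ => ?_
  rw [h j, max_eq_left (by linarith), zero_div, zero_smul]

/-- the boundary point lies in `geo K` -/
theorem yv_mem (hK : DownClosed K) {d : ℕ}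
    (hs : Function.Injective s) (hcard : ∀ i, (s i).card = d + 1)
    (hsK : ∀ i, s i ∉ K) (hf : ∀ i, ∀ t, t ⊂ s i → t ∈ K)
    {x : V → ℝ} (hx : x ∈ geo (K ∪ Set.range s)) (hδ : del s x < 1) : yv s x ∈ geo K := by
  have hne : ∀ i, (s i).Nonempty := fun i => Finset.card_pos.1 (by rw [hcard]; omega)
  rcases dichotomy hK hs hcard hsK hx with ⟨hxK, h⟩ | ⟨i, hi, hpos, h⟩
  · obtain ⟨e1, e2⟩ := del_Dv_of_zero h
    have : yv s x = x := by unfold yv; rw [e1, e2]; simp
    rw [this]
    exact ⟨hx.1, hx.2.1, hxK⟩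
  · obtain ⟨e1, e2⟩ := del_Dv_of_single h
    have hδ' : 0 < 1 - del s x := by linarith
    have hval : ∀ v, yv s x v = (1 - dl (s i) x)⁻¹ * (x v - dl (s i) x * bary (s i) v) := by
      intro v; unfold yv; rw [e1, e2]; simp
    rw [e1] at hδ'
    have hinv : 0 < (1 - dl (s i) x)⁻¹ := by positivity
    have hxv : ∀ v, v ∉ s i → x v = 0 := by
      intro v hv
      rw [← hi, mem_supp] at hv
      simpa using hv
    have hnn : ∀ v, 0 ≤ x v - dl (s i) x * bary (s i) v := by
      intro v
      unfold bary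
      split_ifs with hv
      · have := dl_mul_le (hne i) x hv; linarith
      · have := hx.1 v; linarith
    refine ⟨fun v => ?_, ?_, ?_⟩
    · rw [hval]; exact mul_nonneg hinv.le (hnn v)
    · simp only [hval]
      rw [← Finset.mul_sum, Finset.sum_sub_distrib, ← Finset.mul_sum, sum_bary (hne i), hx.2.1]
      field_simp
    · apply hf i
      rw [Finset.ssubset_iff_of_subset]
      · obtain ⟨v, hv, he⟩ := exists_dl_eq (hne i) x
        refine ⟨v, hv, ?_⟩
        rw [mem_supp, hval, he]
        unfold bary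
        rw [if_pos hv]; simp
      · intro v hv
        by_contra hc
        rw [mem_supp, hval] at hv
        apply hv
        unfold bary
        rw [if_neg hc, hxv v hc]; simp

theorem A_mem (hK : DownClosed K) {d : ℕ}
    (hs : Function.Injective s) (hcard : ∀ i, (s i).card = d + 1)
    (hsK : ∀ i, s i ∉ K) (hf : ∀ i, ∀ t, t ⊂ s i → t ∈ K)
    {x : V → ℝ} (hx : x ∈ geo (K ∪ Set.range s)) {t : ℝ} (ht0 : 0 ≤ t) (ht1 : t ≤ 1)
    (ht : t ≤ 2 * del s x) :
    (2 / (2 - t)) • (x - Dv s x) + Cv s t x ∈ geo (K ∪ Set.range s) := by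
  have hne : ∀ i, (s i).Nonempty := fun i => Finset.card_pos.1 (by rw [hcard]; omega)
  rcases dichotomy hK hs hcard hsK hx with ⟨hxK, h⟩ | ⟨i, hi, hpos, h⟩
  · obtain ⟨e1, e2⟩ := del_Dv_of_zero h
    rw [e1] at ht
    have ht' : t = 0 := by linarith
    rw [e2, Cv_of_zero ht0 h, ht']
    simpa using hx
  · obtain ⟨e1, e2⟩ := del_Dv_of_single h
    rw [e1] at ht
    rw [e2, Cv_of_single ht0 h, max_eq_right (by linarith)]
    have h2t : 0 < 2 - t := by linarith
    have hxv : ∀ v, v ∉ s i → x v = 0 := by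
      intro v hv
      rw [← hi, mem_supp] at hv
      simpa using hv
    have hnn : ∀ v, 0 ≤ x v - dl (s i) x * bary (s i) v := by
      intro v
      unfold bary
      split_ifs with hv
      · have := dl_mul_le (hne i) x hv; linarith
      · have := hx.1 v; linarith
    have hb : ∀ v, 0 ≤ bary (s i) v := by
      intro v; unfold bary; split_ifs <;> positivity
    have hval : ∀ v, ((2 / (2 - t)) • (x - dl (s i) x • bary (s i)) +
        ((2 * dl (s i) x - t) / (2 - t)) • bary (s i)) v =
        (2 / (2 - t)) * (x v - dl (s i) x * bary (s i) v) +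
        ((2 * dl (s i) x - t) / (2 - t)) * bary (s i) v := by
      intro v; simp
    refine ⟨fun v => ?_, ?_, ?_⟩
    · rw [hval]
      have h1 := hnn v
      have h2 := hb v
      have h3 : 0 ≤ 2 * dl (s i) x - t := by linarith
      positivity
    · simp only [hval]
      rw [Finset.sum_add_distrib, ← Finset.mul_sum, ← Finset.mul_sum, Finset.sum_sub_distrib,
        ← Finset.mul_sum, sum_bary (hne i), hx.2.1]
      field_simp
      ring
    · have hsub : supp ((2 / (2 - t)) • (x - dl (s i) x • bary (s i)) +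
        ((2 * dl (s i) x - t) / (2 - t)) • bary (s i)) ⊆ s i := by
        intro v hv
        by_contra hc
        rw [mem_supp, hval] at hv
        apply hv
        unfold bary
        rw [if_neg hc, hxv v hc]; simp
      rcases hsub.eq_or_ssubset with h1 | h1
      · rw [h1]; exact Or.inr ⟨i, rfl⟩
      · exact Or.inl (hf i _ h1)

end

end Deform

open Deform in
/-- homotopy extension for facets attached to a contractible complex -/
theorem exists_deform {K : Set (Finset V)} (hK : DownClosed K) {N d : ℕ} (hd : 1 ≤ d)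
    (s : Fin N → Finset V) (hs : Function.Injective s) (hcard : ∀ i, (s i).card = d + 1)
    (hsK : ∀ i, s i ∉ K) (hf : ∀ i, ∀ t, t ⊂ s i → t ∈ K) (hc : ContractibleSpace (geo K)) :
    ∃ G : C(unitInterval × geo (K ∪ Set.range s), geo (K ∪ Set.range s)),
      (∀ x, G (0, x) = x) ∧
      (∀ t x, x.1 ∈ geo K → (G (t, x)).1 ∈ geo K) ∧ ∃ a, ∀ x, x.1 ∈ geo K → G (1, x) = a := by
  classical
  obtain ⟨a, ⟨F⟩⟩ := id_nullhomotopic (geo K)
  have hmono : geo K ⊆ geo (K ∪ Set.range s) := fun x hx => ⟨hx.1, hx.2.1, Or.inl hx.2.2⟩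
  -- the two formulas
  let P := unitInterval × geo (K ∪ Set.range s)
  let fA : P → V → ℝ := fun p =>
    (2 / (2 - (p.1 : ℝ))) • (p.2.1 - Dv s p.2.1) + Cv s p.1 p.2.1
  let δ : P → ℝ := fun p => del s p.2.1
  have hδlt : ∀ p : P, 2 * δ p ≤ (p.1 : ℝ) → del s p.2.1 < 1 := by
    intro p hp
    have := p.1.2.2
    simp only [δ] at hp
    linarith
  let fB : P → V → ℝ := fun p =>
    if h : 2 * δ p ≤ (p.1 : ℝ) then
      (F (Set.projIcc (0 : ℝ) 1 zero_le_one ((p.1 : ℝ) - 2 * δ p),
        ⟨yv s p.2.1, yv_mem hK hs hcard hsK hf p.2.2 (hδlt p h)⟩)).1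
    else 0
  have hδc : Continuous δ := (del_continuous s).comp (continuous_subtype_val.comp continuous_snd)
  have htc : Continuous fun p : P => (p.1 : ℝ) := continuous_subtype_val.comp continuous_fst
  have hxc : Continuous fun p : P => p.2.1 := continuous_subtype_val.comp continuous_snd
  have h2t : ∀ p : P, (2 - (p.1 : ℝ)) ≠ 0 := fun p => by
    have := p.1.2.2; linarith
  have hfA : Continuous fA := by
    refine Continuous.add ?_ ?_
    · have h1 : Continuous fun p : P => (2 / (2 - (p.1 : ℝ))) :=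
        continuous_const.div (continuous_const.sub htc) h2t
      exact h1.smul (hxc.sub ((Dv_continuous s).comp hxc))
    · unfold Cv
      refine continuous_finsetSum _ fun i _ => ?_
      have h1 : Continuous fun p : P => max 0 (2 * dl (s i) p.2.1 - (p.1 : ℝ)) :=
        continuous_const.max ((continuous_const.mul ((dl_continuous (s i)).comp hxc)).sub htc)
      have h2 : Continuous fun p : P =>
          (max 0 (2 * dl (s i) p.2.1 - (p.1 : ℝ)) / (2 - (p.1 : ℝ))) :=
        h1.div (continuous_const.sub htc) h2t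
      exact h2.smul continuous_const
  have hfB : ContinuousOn fB {p | 2 * δ p ≤ (p.1 : ℝ)} := by
    rw [continuousOn_iff_continuous_domRestrict]
    have he : Set.domRestrict {p : P | 2 * δ p ≤ (p.1 : ℝ)} fB = fun p =>
        (F (Set.projIcc (0 : ℝ) 1 zero_le_one ((p.1.1 : ℝ) - 2 * δ p.1),
        ⟨yv s p.1.2.1, yv_mem hK hs hcard hsK hf p.1.2.2 (hδlt p.1 p.2)⟩)).1 := by
      funext p
      have hp : 2 * δ p.1 ≤ (p.1.1 : ℝ) := p.2
      exact dif_pos hp
    rw [he]
    refine continuous_subtype_val.comp (F.continuous.comp ?_)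
    refine Continuous.prodMk ?_ ?_
    · exact continuous_projIcc.comp (((htc.sub (continuous_const.mul hδc))).comp
        continuous_subtype_val)
    · refine Continuous.subtype_mk ?_ _
      unfold yv
      have h1 : Continuous fun p : {p : P | 2 * δ p ≤ (p.1 : ℝ)} => (1 - del s p.1.2.1)⁻¹ := by
        refine Continuous.inv₀ ((continuous_const.sub hδc).comp continuous_subtype_val) ?_
        intro p
        have := hδlt p.1 p.2
        have h3 : 1 - del s p.1.2.1 ≠ 0 := by linarith
        exact h3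
      exact h1.smul ((hxc.sub ((Dv_continuous s).comp hxc)).comp continuous_subtype_val)
  -- agreement
  have hagree : ∀ p : P, (p.1 : ℝ) = 2 * δ p → fA p = fB p := by
    intro p hp
    have hp' : 2 * δ p ≤ (p.1 : ℝ) := hp.ge
    have h1 := p.1.2.2
    have hδ1 : 1 - del s p.2.1 ≠ 0 := by
      have := hδlt p hp'; linarith
    have hC : Cv s p.1 p.2.1 = 0 := by
      unfold Cv
      refine Finset.sum_eq_zero fun i _ => ?_
      have : dl (s i) p.2.1 ≤ δ p :=
        Finset.single_le_sum (f := fun i => dl (s i) p.2.1)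
          (fun j _ => dl_nonneg (s j) p.2.2.1) (Finset.mem_univ i)
      rw [max_eq_left (by linarith), zero_div, zero_smul]
    have hproj : Set.projIcc (0 : ℝ) 1 zero_le_one ((p.1 : ℝ) - 2 * δ p) = 0 := by
      rw [hp, sub_self]
      exact Set.projIcc_left zero_le_one
    simp only [fA, fB, dif_pos hp', hproj]
    rw [ContinuousMap.Homotopy.apply_zero, hC, add_zero, hp]
    simp only [ContinuousMap.id_apply, yv, δ]
    congr 1
    field_simp
  let g : P → V → ℝ := fun p => if (p.1 : ℝ) ≤ 2 * δ p then fA p else fB p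
  have hg : Continuous g :=
    continuous_if_le htc (continuous_const.mul hδc) hfA.continuousOn hfB hagree
  have hmemB : ∀ p : P, ¬ ((p.1 : ℝ) ≤ 2 * δ p) → g p ∈ geo K := by
    intro p hp
    have hp' : 2 * δ p ≤ (p.1 : ℝ) := by linarith
    simp only [g, if_neg hp, fB, dif_pos hp']
    exact (F _).2
  have hmem : ∀ p, g p ∈ geo (K ∪ Set.range s) := by
    intro p
    by_cases hp : (p.1 : ℝ) ≤ 2 * δ p
    · simp only [g, if_pos hp, fA]
      exact A_mem hK hs hcard hsK hf p.2.2 p.1.2.1 p.1.2.2 hp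
    · exact hmono (hmemB p hp)
  have hKzero : ∀ x : geo (K ∪ Set.range s), x.1 ∈ geo K → ∀ i, dl (s i) x.1 = 0 := by
    intro x hx
    rcases dichotomy hK hs hcard hsK x.2 with ⟨-, h⟩ | ⟨i, hi, -, -⟩
    · exact h
    · exfalso
      apply hsK i
      rw [← hi]; exact hx.2.2
  refine ⟨⟨fun p => ⟨g p, hmem p⟩, hg.subtype_mk _⟩, ?_, ?_, ⟨a.1, hmono a.2⟩, ?_⟩
  · intro x
    apply Subtype.ext
    have h0 : 0 ≤ 2 * δ (0, x) := by
      have : 0 ≤ δ (0, x) := Finset.sum_nonneg fun i _ => dl_nonneg (s i) x.2.1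
      linarith
    have h0' : (((0 : unitInterval), x).1 : ℝ) ≤ 2 * δ (0, x) := by simpa using h0
    show g (0, x) = x.1
    simp only [g, if_pos h0', fA]
    have hC : Cv s ((0 : unitInterval) : ℝ) x.1 = Dv s x.1 := by
      unfold Cv Dv
      refine Finset.sum_congr rfl fun i _ => ?_
      have := dl_nonneg (s i) x.2.1
      rw [Set.Icc.coe_zero, sub_zero, sub_zero, max_eq_right (by linarith)]
      congr 1
      ring
    rw [hC]
    simp
  · intro t x hx
    by_cases hp : (t : ℝ) ≤ 2 * δ (t, x)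
    · obtain ⟨e1, e2⟩ := del_Dv_of_zero (hKzero x hx)
      have hp' := hp
      simp only [δ] at hp'
      rw [e1] at hp'
      have ht : (t : ℝ) = 0 := by
        have := t.2.1; linarith
      show g (t, x) ∈ geo K
      have hp2 : (((t, x) : P).1 : ℝ) ≤ 2 * δ (t, x) := hp
      simp only [g, if_pos hp2, fA]
      rw [e2, Cv_of_zero t.2.1 (hKzero x hx), ht]
      simpa using hx
    · exact hmemB (t, x) hp
  · intro x hx
    apply Subtype.ext
    obtain ⟨e1, e2⟩ := del_Dv_of_zero (hKzero x hx)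
    have hδ0 : δ (1, x) = 0 := e1
    have hp : ¬ ((((1 : unitInterval), x) : P).1 : ℝ) ≤ 2 * δ (1, x) := by
      rw [hδ0]; simp
    have hp' : 2 * δ (1, x) ≤ ((((1 : unitInterval), x) : P).1 : ℝ) := by linarith
    show g (1, x) = a.1
    simp only [g, if_neg hp, fB, dif_pos hp']
    have hproj : Set.projIcc (0 : ℝ) 1 zero_le_one (((1 : unitInterval) : ℝ) - 2 * δ (1, x)) = 1 := by
      rw [hδ0, mul_zero, sub_zero, Set.Icc.coe_one]
      exact Set.projIcc_right zero_le_one
    rw [hproj, ContinuousMap.Homotopy.apply_one]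
    rfl

end Pool.Agent.Lib.MP_53e7c4_co
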