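import Mathlib
import Pool.Agent.Lib.MP_53e7c4_co.Built
import Pool.Agent.Lib.MP_53e7c4_co.Deform
import Pool.Agent.Lib.MP_53e7c4_co.Collapse

/-!
A complex built by expansions and attachments of `m`-element faces is homotopy equivalent to a
wedge of `(m-1)`-spheres.
-/

namespace Pool.Agent.Lib.MP_53e7c4_co

open scoped ContinuousMap unitInterval

variable {V : Type} [Fintype V] [DecidableEq V]

/-- Collapsing a subset along which the space deforms. -/
theorem homotopyEquiv_of_quotient {X Y : Type} [TopologicalSpace X] [TopologicalSpace Y]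
    (A : Set X) (q : X → Y) (hq : Topology.IsQuotientMap q)
    (hq' : ∀ x y, q x = q y ↔ x = y ∨ (x ∈ A ∧ y ∈ A))
    (G : C(unitInterval × X, X)) (h0 : ∀ x, G (0, x) = x) (hA : ∀ t, ∀ x ∈ A, G (t, x) ∈ A)
    (a : X) (h1 : ∀ x ∈ A, G (1, x) = a) : Nonempty (X ≃ₕ Y) := by
  let s : Y → X := Function.surjInv hq.surjective
  have hs : ∀ y, q (s y) = y := Function.surjInv_eq hq.surjective
  let g : unitInterval × Y → Y := fun p => q (G (p.1, s p.2))
  have hg : ∀ t x, g (t, q x) = q (G (t, x)) := by
    intro t x
    show q (G (t, s (q x))) = q (G (t, x))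
    rcases (hq' (s (q x)) x).1 (hs (q x)) with h | ⟨h, h'⟩
    · rw [h]
    · exact (hq' _ _).2 (Or.inr ⟨hA t _ h, hA t _ h'⟩)
  have hgc : Continuous g := by
    refine hq.continuous_lift_prod_right ?_
    have : (fun p : unitInterval × X => g (p.1, q p.2)) = fun p => q (G p) := by
      ext p
      exact hg p.1 p.2
    rw [this]
    exact hq.continuous.comp G.continuous
  let r : Y → X := fun y => G (1, s y)
  have hr : ∀ x, r (q x) = G (1, x) := by
    intro x
    show G (1, s (q x)) = G (1, x)
    rcases (hq' (s (q x)) x).1 (hs (q x)) with h | ⟨h, h'⟩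
    · rw [h]
    · rw [h1 _ h, h1 _ h']
  have hrc : Continuous r := by
    rw [hq.continuous_iff]
    have : r ∘ q = fun x => G (1, x) := by
      ext x
      exact hr x
    rw [this]
    fun_prop
  refine ⟨⟨⟨q, hq.continuous⟩, ⟨r, hrc⟩, ?_, ?_⟩⟩
  · refine ContinuousMap.Homotopic.symm ⟨⟨G, ?_, ?_⟩⟩
    · intro x; exact h0 x
    · intro x; exact (hr x).symm
  · refine ContinuousMap.Homotopic.symm ⟨⟨⟨g, hgc⟩, ?_, ?_⟩⟩
    · intro y
      show q (G (0, s y)) = y
      rw [h0, hs]
    · intro y
      rfl

omit [Fintype V] in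
theorem downClosed_expand {K : Set (Finset V)} (hK : DownClosed K) {τ : Finset V} {v : V}
    (hf : ∀ t, t ⊂ insert v τ → t ≠ τ → t ∈ K) : DownClosed (K ∪ {τ, insert v τ}) := by
  intro s hs t hts
  rcases hs with hs | hs | hs
  · exact Or.inl (hK s hs t hts)
  · subst hs
    by_cases h : t = s
    · exact Or.inr (Or.inl h)
    · refine Or.inl (hf t ?_ h)
      exact Finset.ssubset_of_ssubset_of_subset (Finset.ssubset_iff_subset_ne.2 ⟨hts, h⟩)
        (Finset.subset_insert _ _)
  · rw [Set.mem_singleton_iff] at hs
    subst hs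
    by_cases h : t = insert v τ
    · exact Or.inr (Or.inr h)
    by_cases h' : t = τ
    · exact Or.inr (Or.inl h')
    exact Or.inl (hf t (Finset.ssubset_iff_subset_ne.2 ⟨hts, h⟩) h')

/-- The minimum of the coordinates in `τ`. -/
noncomputable def mu (τ : Finset V) (hτ : τ.Nonempty) (x : V → ℝ) : ℝ := τ.inf' hτ x

/-- Move mass from `τ` to `v`. -/
noncomputable def push (τ : Finset V) (hτ : τ.Nonempty) (v : V) (x : V → ℝ) : V → ℝ := fun u =>
  if u ∈ τ then x u - mu τ hτ x else if u = v then x v + τ.card * mu τ hτ x else x u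

omit [Fintype V] [DecidableEq V] in
theorem mu_continuous (τ : Finset V) (hτ : τ.Nonempty) : Continuous (mu τ hτ) := by
  unfold mu
  exact Continuous.finset_inf'_apply hτ (fun i _ => continuous_apply i)

omit [Fintype V] in
theorem push_continuous (τ : Finset V) (hτ : τ.Nonempty) (v : V) :
    Continuous (push τ hτ v) := by
  refine continuous_pi fun u => ?_
  unfold push
  have h := mu_continuous τ hτ
  split_ifs
  · exact (continuous_apply u).sub h
  · exact (continuous_apply v).add (continuous_const.mul h)
  · exact continuous_apply u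

theorem push_sum (τ : Finset V) (hτ : τ.Nonempty) {v : V} (hv : v ∉ τ) (x : V → ℝ) :
    ∑ u, push τ hτ v x u = ∑ u, x u := by
  have h1 : ∀ u, push τ hτ v x u = x u + ((if u ∈ τ then - mu τ hτ x else 0) +
      (if u = v then τ.card * mu τ hτ x else 0)) := by
    intro u
    unfold push
    by_cases h : u ∈ τ
    · have : u ≠ v := fun h' => hv (h' ▸ h)
      simp [h, this]
      ring
    · by_cases h' : u = v
      · simp [h', hv]
      · simp [h, h']
  rw [Finset.sum_congr rfl fun u _ => h1 u, Finset.sum_add_distrib, Finset.sum_add_distrib]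
  rw [Finset.sum_ite_mem, Finset.univ_inter, Finset.sum_const, Finset.sum_ite_eq' Finset.univ v]
  simp

theorem geo_expand {K : Set (Finset V)} (hK : DownClosed K) {τ : Finset V} {v : V} (hv : v ∉ τ)
    (hτ0 : τ.Nonempty) (hτ : τ ∉ K) (hf : ∀ t, t ⊂ insert v τ → t ≠ τ → t ∈ K) :
    Nonempty (geo K ≃ₕ geo (K ∪ {τ, insert v τ})) := by
  have hK' := downClosed_expand hK hf
  have hmu0 : ∀ x ∈ geo K, mu τ hτ0 x = 0 := by
    intro x hx
    have hnn : 0 ≤ mu τ hτ0 x := by
      unfold mu
      rw [Finset.le_inf'_iff]
      exact fun u _ => hx.1 u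
    by_contra hne
    have hpos : 0 < mu τ hτ0 x := lt_of_le_of_ne hnn (Ne.symm hne)
    apply hτ
    refine hK _ hx.2.2 τ ?_
    intro u hu
    rw [mem_supp]
    have : mu τ hτ0 x ≤ x u := Finset.inf'_le _ hu
    exact ne_of_gt (lt_of_lt_of_le hpos this)
  have hpush0 : ∀ x ∈ geo K, push τ hτ0 v x = x := by
    intro x hx
    ext u
    unfold push
    rw [hmu0 x hx]
    split_ifs with h1 h2
    · ring
    · rw [h2]; ring
    · rfl
  have hpush : ∀ x ∈ geo (K ∪ {τ, insert v τ}), push τ hτ0 v x ∈ geo K := by
    intro x hx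
    by_cases hxK : supp x ∈ K
    · have hx' : x ∈ geo K := ⟨hx.1, hx.2.1, hxK⟩
      rw [hpush0 x hx']
      exact hx'
    · have hnn : 0 ≤ mu τ hτ0 x := by
        unfold mu
        rw [Finset.le_inf'_iff]
        exact fun u _ => hx.1 u
      refine ⟨?_, ?_, ?_⟩
      · intro u
        unfold push
        split_ifs with h1 h2
        · have : mu τ hτ0 x ≤ x u := Finset.inf'_le _ h1
          linarith
        · have := hx.1 v
          positivity
        · exact hx.1 u
      · rw [push_sum τ hτ0 hv]
        exact hx.2.1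
      · have hsupp : supp x ⊆ insert v τ := by
          rcases hx.2.2 with h | h | h
          · exact absurd h hxK
          · rw [h]; exact Finset.subset_insert _ _
          · rw [Set.mem_singleton_iff] at h
            rw [h]
        obtain ⟨u0, hu0, hu0'⟩ := Finset.exists_mem_eq_inf' hτ0 x
        have hu0v : u0 ≠ v := fun h => hv (h ▸ hu0)
        have ht : (insert v τ).erase u0 ∈ K := by
          refine hf _ (Finset.erase_ssubset (Finset.mem_insert_of_mem hu0)) fun h => hv ?_
          rw [← h]
          exact Finset.mem_erase.2 ⟨hu0v.symm, Finset.mem_insert_self _ _⟩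
        refine hK _ ht _ ?_
        intro u hu
        rw [mem_supp] at hu
        rw [Finset.mem_erase]
        constructor
        · rintro rfl
          apply hu
          unfold push
          rw [if_pos hu0]
          unfold mu
          rw [hu0']
          ring
        · by_contra hnot
          rw [Finset.mem_insert, not_or] at hnot
          apply hu
          unfold push
          rw [if_neg hnot.2, if_neg hnot.1]
          by_contra hne
          have := hsupp (mem_supp.2 hne)
          rw [Finset.mem_insert] at this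
          tauto
  have hsub : ∀ x ∈ geo K, x ∈ geo (K ∪ {τ, insert v τ}) := fun x hx =>
    ⟨hx.1, hx.2.1, Or.inl hx.2.2⟩
  have hconv : ∀ x ∈ geo (K ∪ {τ, insert v τ}), ∀ t : ℝ, 0 ≤ t → t ≤ 1 →
      (1 - t) • push τ hτ0 v x + t • x ∈ geo (K ∪ {τ, insert v τ}) := by
    intro x hx t ht0 ht1
    have hp := hpush x hx
    refine ⟨?_, ?_, ?_⟩
    · intro u
      have h1 := hp.1 u
      have h2 := hx.1 u
      simp only [Pi.add_apply, Pi.smul_apply, smul_eq_mul]
      have : 0 ≤ 1 - t := by linarith
      positivity
    · simp only [Pi.add_apply, Pi.smul_apply, smul_eq_mul]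
      rw [Finset.sum_add_distrib, ← Finset.mul_sum, ← Finset.mul_sum, hp.2.1, hx.2.1]
      ring
    · by_cases hxK : supp x ∈ K
      · have hx' : x ∈ geo K := ⟨hx.1, hx.2.1, hxK⟩
        have h1 : (1 - t) • push τ hτ0 v x + t • x = x := by
          rw [hpush0 x hx']
          ext u
          simp
          ring
        rw [h1]
        exact Or.inl hxK
      · have hsupp : supp x ⊆ insert v τ := by
          rcases hx.2.2 with h | h | h
          · exact absurd h hxK
          · rw [h]; exact Finset.subset_insert _ _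
          · rw [Set.mem_singleton_iff] at h
            rw [h]
        refine hK' (insert v τ) (Or.inr (Or.inr rfl)) _ ?_
        intro u hu
        by_contra hnot
        rw [mem_supp] at hu
        apply hu
        have hxu : x u = 0 := by
          by_contra hne
          exact hnot (hsupp (mem_supp.2 hne))
        have hpu : push τ hτ0 v x u = 0 := by
          rw [Finset.mem_insert, not_or] at hnot
          unfold push
          rw [if_neg hnot.2, if_neg hnot.1]
          exact hxu
        simp [hxu, hpu]
  refine ⟨⟨⟨fun x => ⟨x.1, hsub _ x.2⟩, by fun_prop⟩,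
    ⟨fun x => ⟨push τ hτ0 v x.1, hpush _ x.2⟩,
      ((push_continuous τ hτ0 v).comp continuous_subtype_val).subtype_mk _⟩, ?_, ?_⟩⟩
  · have : (ContinuousMap.mk (fun x : geo (K ∪ {τ, insert v τ}) =>
        (⟨push τ hτ0 v x.1, hpush _ x.2⟩ : geo K))
        (((push_continuous τ hτ0 v).comp continuous_subtype_val).subtype_mk _)).comp
        (ContinuousMap.mk (fun x : geo K => (⟨x.1, hsub _ x.2⟩ : geo (K ∪ {τ, insert v τ})))
          (by fun_prop)) = ContinuousMap.id _ := by
      ext x : 1
      apply Subtype.ext
      exact hpush0 x.1 x.2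
    rw [this]
  · refine ⟨⟨⟨fun p => ⟨(1 - (p.1 : ℝ)) • push τ hτ0 v p.2.1 + (p.1 : ℝ) • p.2.1,
      hconv _ p.2.2 _ p.1.2.1 p.1.2.2⟩, ?_⟩, ?_, ?_⟩⟩
    · refine Continuous.subtype_mk ?_ _
      have h := (push_continuous τ hτ0 v).comp
        (continuous_subtype_val.comp (continuous_snd (X := unitInterval)
          (Y := geo (K ∪ {τ, insert v τ}))))
      have h2 : Continuous fun p : unitInterval × geo (K ∪ {τ, insert v τ}) => (p.1 : ℝ) := by
        fun_prop
      exact ((continuous_const.sub h2).smul h).add (h2.smul (by fun_prop))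
    · intro x
      apply Subtype.ext
      simp
    · intro x
      apply Subtype.ext
      simp

/-- `Exp m L K`: the complex `K` is obtained from `L` by elementary expansions along pairs whose
smaller member has at least `m` elements. -/
inductive Exp (m : ℕ) (L : Set (Finset V)) : Set (Finset V) → Prop
  | refl : Exp m L L
  | step {K : Set (Finset V)} (τ : Finset V) (v : V) (hv : v ∉ τ) (hτ : τ ∉ K)
      (hf : ∀ t, t ⊂ insert v τ → t ≠ τ → t ∈ K) (hm : m ≤ τ.card) (hK : Exp m L K) :
      Exp m L (K ∪ {τ, insert v τ})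

omit [Fintype V] in
theorem Exp.subset {m : ℕ} {L K : Set (Finset V)} (h : Exp m L K) : L ⊆ K := by
  induction h with
  | refl => exact Set.Subset.refl _
  | step τ v hv hτ hf hm hK ih => exact ih.trans Set.subset_union_left

omit [Fintype V] in
/-- Expansions commute with adding new faces. -/
theorem Exp.union {m : ℕ} {L K : Set (Finset V)} (h : Exp m L K) (P : Set (Finset V))
    (hP : ∀ s ∈ P, s ∉ K) : Exp m (L ∪ P) (K ∪ P) := by
  induction h with
  | refl => exact Exp.refl
  | @step K τ v hv hτ hf hm hK ih =>
    have ih' := ih fun s hs h => hP s hs (Or.inl h)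
    have key := Exp.step τ v hv (K := K ∪ P) ?_ (fun t ht hne => Or.inl (hf t ht hne)) hm ih'
    · have : K ∪ {τ, insert v τ} ∪ P = K ∪ P ∪ {τ, insert v τ} := by
        rw [Set.union_assoc, Set.union_comm _ P, ← Set.union_assoc]
      rw [this]
      exact key
    · rintro (h | h)
      · exact hτ h
      · exact hP τ h (Or.inr (Or.inl rfl))

theorem Exp.hequiv {m : ℕ} (hm : 1 ≤ m) {L K : Set (Finset V)} (hL : DownClosed L)
    (h : Exp m L K) : DownClosed K ∧ Nonempty (geo L ≃ₕ geo K) := by
  induction h with
  | refl => exact ⟨hL, ⟨ContinuousMap.HomotopyEquiv.refl _⟩⟩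
  | step τ v hv hτ hf hmτ hK ih =>
    obtain ⟨hdc, ⟨e⟩⟩ := ih
    refine ⟨downClosed_expand hdc hf, ?_⟩
    obtain ⟨e'⟩ := geo_expand hdc hv (Finset.card_pos.1 (by omega)) hτ hf
    exact ⟨e.trans e'⟩

omit [Fintype V] in
/-- Reordering: first the small expansions, then the attachments, then the large expansions. -/
theorem Built.reorder {m N : ℕ} {K : Set (Finset V)} (h : Built m N K) :
    ∃ (K0 : Set (Finset V)) (C : Finset (Finset V)), Built m 0 K0 ∧ C.card = N ∧
      (∀ s ∈ K, s.card < m → s ∈ K0) ∧
      (∀ s ∈ C, s.card = m ∧ s ∉ K0 ∧ ∀ t, t ⊂ s → t ∈ K0) ∧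
      Exp m (K0 ∪ (C : Set (Finset V))) K := by
  classical
  induction h with
  | void => exact ⟨∅, ∅, Built.void, rfl, by simp, by simp, by simpa using Exp.refl⟩
  | @expand N K τ v hv hτ hf hK ih =>
    obtain ⟨K0, C, h1, h2, h3, h4, h5⟩ := ih
    have hdc := hK.downClosed
    have hsub := h5.subset
    have hiτ : insert v τ ∉ K := fun h => hτ (hdc _ h _ (Finset.subset_insert _ _))
    by_cases hcard : τ.card < m
    · refine ⟨K0 ∪ {τ, insert v τ}, C, ?_, h2, ?_, ?_, ?_⟩
      · refine Built.expand τ v hv (fun h => hτ (hsub (Or.inl h))) (fun t ht hne => ?_) h1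
        refine h3 t (hf t ht hne) ?_
        have := Finset.card_lt_card ht
        rw [Finset.card_insert_of_notMem hv] at this
        omega
      · rintro s (hs | hs) hs'
        · exact Or.inl (h3 s hs hs')
        · exact Or.inr hs
      · intro s hs
        obtain ⟨h6, h7, h8⟩ := h4 s hs
        have hsK : s ∈ K := hsub (Or.inr hs)
        refine ⟨h6, ?_, fun t ht => Or.inl (h8 t ht)⟩
        rintro (h | h | h)
        · exact h7 h
        · exact hτ (h ▸ hsK)
        · rw [Set.mem_singleton_iff] at h
          exact hiτ (h ▸ hsK)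
      · have key := h5.union {τ, insert v τ} (by
          rintro s (h | h)
          · rw [h]; exact hτ
          · rw [Set.mem_singleton_iff] at h
            rw [h]; exact hiτ)
        have : K0 ∪ {τ, insert v τ} ∪ (C : Set (Finset V)) =
            K0 ∪ (C : Set (Finset V)) ∪ {τ, insert v τ} := by
          rw [Set.union_assoc, Set.union_comm _ (C : Set (Finset V)), ← Set.union_assoc]
        rw [this]
        exact key
    · refine ⟨K0, C, h1, h2, ?_, h4, Exp.step τ v hv hτ hf (by omega) h5⟩
      rintro s (hs | hs | hs) hs'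
      · exact h3 s hs hs'
      · rw [hs] at hs'; omega
      · rw [Set.mem_singleton_iff] at hs
        rw [hs, Finset.card_insert_of_notMem hv] at hs'
        omega
  | @attach N K τ hc hτ hf hK ih =>
    obtain ⟨K0, C, h1, h2, h3, h4, h5⟩ := ih
    have hsub := h5.subset
    have hτC : τ ∉ C := fun h => hτ (hsub (Or.inr h))
    refine ⟨K0, insert τ C, h1, ?_, ?_, ?_, ?_⟩
    · rw [Finset.card_insert_of_notMem hτC, h2]
    · rintro s (hs | hs) hs'
      · exact h3 s hs hs'
      · rw [Set.mem_singleton_iff] at hs
        rw [hs] at hs'; omega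
    · intro s hs
      rw [Finset.mem_insert] at hs
      rcases hs with rfl | hs
      · refine ⟨hc, fun h => hτ (hsub (Or.inl h)), fun t ht => h3 t (hf t ht) ?_⟩
        have := Finset.card_lt_card ht
        omega
      · exact h4 s hs
    · have key := h5.union {τ} (by
        intro s h
        rw [Set.mem_singleton_iff] at h
        rw [h]; exact hτ)
      have : K0 ∪ ((insert τ C : Finset (Finset V)) : Set (Finset V)) =
          K0 ∪ (C : Set (Finset V)) ∪ {τ} := by
        rw [Finset.coe_insert, Set.insert_eq, Set.union_comm {τ}, ← Set.union_assoc]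
      rw [this]
      exact key

/-- A complex built by expansions only is contractible. -/
theorem Built.contractible {m N : ℕ} {K : Set (Finset V)} (h : Built m N K) (hN : N = 0)
    (hne : K.Nonempty) : ContractibleSpace (geo K) := by
  induction h with
  | void => exact absurd hne Set.not_nonempty_empty
  | @expand N K τ v hv hτ hf hK ih =>
    have hdc := hK.downClosed
    rcases K.eq_empty_or_nonempty with rfl | hKne
    · -- the first expansion gives a point
      have hτe : τ = ∅ := by
        by_contra hne'
        have h1 : (∅ : Finset V) ⊂ insert v τ :=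
          Finset.empty_ssubset.2 ⟨v, Finset.mem_insert_self _ _⟩
        exact absurd (hf ∅ h1 (Ne.symm hne')) (by simp)
      subst hτe
      have hmem : ∀ x ∈ geo (∅ ∪ {∅, insert v ∅} : Set (Finset V)), x = Pi.single v 1 := by
        intro x hx
        have hsupp : supp x ⊆ {v} := by
          rcases hx.2.2 with h | h | h
          · exact absurd h (by simp)
          · rw [h]; simp
          · rw [Set.mem_singleton_iff] at h
            rw [h]; simp
        have h0 : ∀ u, u ≠ v → x u = 0 := by
          intro u hu
          by_contra hne'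
          have := hsupp (mem_supp.2 hne')
          rw [Finset.mem_singleton] at this
          exact hu this
        have hsum := hx.2.1
        rw [Finset.sum_eq_single v (fun u _ hu => h0 u hu) (by simp)] at hsum
        ext u
        by_cases hu : u = v
        · subst hu; simp [hsum]
        · simp [hu, h0 u hu]
      have hpt : (Pi.single v 1 : V → ℝ) ∈ geo (∅ ∪ {∅, insert v ∅} : Set (Finset V)) := by
        refine ⟨?_, ?_, ?_⟩
        · intro u
          by_cases hu : u = v
          · subst hu; simp
          · simp [hu]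
        · simp
        · right; right
          rw [Set.mem_singleton_iff]
          ext u
          rw [mem_supp]
          by_cases hu : u = v
          · subst hu; simp
          · simp [hu]
      have : Subsingleton (geo (∅ ∪ {∅, insert v ∅} : Set (Finset V))) :=
        ⟨fun x y => Subtype.ext ((hmem _ x.2).trans (hmem _ y.2).symm)⟩
      have : Nonempty (geo (∅ ∪ {∅, insert v ∅} : Set (Finset V))) := ⟨⟨_, hpt⟩⟩
      infer_instance
    · have hτ0 : τ.Nonempty := by
        rw [Finset.nonempty_iff_ne_empty]
        rintro rfl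
        obtain ⟨s, hs⟩ := hKne
        exact hτ (hdc s hs ∅ (Finset.empty_subset _))
      obtain ⟨e⟩ := geo_expand hdc hv hτ0 hτ hf
      have := ih hN hKne
      exact e.symm.contractibleSpace
  | attach τ hc hτ hf hK ih => omega

/-- A complex built by expansions and `N ≥ 1` attachments of faces with `d + 1` elements is
homotopy equivalent to the wedge of `N` spheres of dimension `d`. -/
theorem Built.wedge {d N : ℕ} (hd : 1 ≤ d) (hN : 1 ≤ N) {K : Set (Finset V)}
    (h : Built (d + 1) N K) : Nonempty (geo K ≃ₕ SphereWedge N d) := by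
  obtain ⟨K0, C, h1, h2, -, h4, h5⟩ := h.reorder
  have hdc0 := h1.downClosed
  let e := (C.equivFinOfCardEq h2).symm
  let s : Fin N → Finset V := fun i => (e i).1
  have hs : Function.Injective s := fun i j hij => e.injective (Subtype.ext hij)
  have hrange : Set.range s = (C : Set (Finset V)) := by
    ext t
    constructor
    · rintro ⟨i, rfl⟩
      exact (e i).2
    · intro ht
      exact ⟨e.symm ⟨t, ht⟩, by simp [s]⟩
  have hcard : ∀ i, (s i).card = d + 1 := fun i => (h4 _ (e i).2).1
  have hsK : ∀ i, s i ∉ K0 := fun i => (h4 _ (e i).2).2.1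
  have hf : ∀ i, ∀ t, t ⊂ s i → t ∈ K0 := fun i => (h4 _ (e i).2).2.2
  have hne : K0.Nonempty := by
    refine ⟨∅, hf ⟨0, hN⟩ ∅ ?_⟩
    rw [Finset.empty_ssubset, ← Finset.card_pos, hcard]
    omega
  have hdc1 : DownClosed (K0 ∪ (C : Set (Finset V))) := by
    rintro t (ht | ht) u hu
    · exact Or.inl (hdc0 t ht u hu)
    · by_cases hut : u = t
      · rw [hut]; exact Or.inr ht
      · exact Or.inl ((h4 t ht).2.2 u (Finset.ssubset_iff_subset_ne.2 ⟨hu, hut⟩))
  obtain ⟨-, ⟨e2⟩⟩ := h5.hequiv (by omega) hdc1
  obtain ⟨G, hG0, hGA, a, hGa⟩ := exists_deform hdc0 hd s hs hcard hsK hf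
    (h1.contractible rfl hne)
  obtain ⟨q, hq, hq'⟩ := exists_collapse hdc0 hN hd s hs hcard hsK hf
  obtain ⟨e3⟩ := homotopyEquiv_of_quotient {x : geo (K0 ∪ Set.range s) | x.1 ∈ geo K0} q hq hq' G
    hG0 (fun t x hx => hGA t x hx) a (fun x hx => hGa x hx)
  rw [hrange] at e3
  exact ⟨e2.symm.trans e3⟩

end Pool.Agent.Lib.MP_53e7c4_co
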