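import Mathlib
import Pool.Agent.Lib.MP_53e7c4_co.Comb
import Pool.Agent.Lib.MP_53e7c4_co.Top

/-!
The main theorem.
-/

namespace Pool.Agent.Lib.MP_53e7c4_co

open scoped ContinuousMap

/-- The order complex of a subposet, as the realization of its chains. -/
noncomputable def orderComplexHomeo {V : Type} [PartialOrder V] [Fintype V] [DecidableEq V]
    (p : V → Prop) [DecidablePred p] [Fintype {v // p v}] :
    OrderComplex {v // p v} ≃ₜ geo (chains {v : V | p v}) where
  toFun x := ⟨fun v => if h : p v then x.1 ⟨v, h⟩ else 0, by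
    have hx := x.2
    have hval : ∀ u : {v // p v}, (if h : p u.1 then x.1 ⟨u.1, h⟩ else 0) = x.1 u := by
      intro u
      rw [dif_pos u.2]
    refine ⟨?_, ?_, ?_, ?_⟩
    · intro v
      show 0 ≤ (if h : p v then x.1 ⟨v, h⟩ else 0)
      split_ifs with h
      · exact hx.1 _
      · exact le_refl _
    · refine Eq.trans ?_ hx.2.1
      show ∑ v, (if h : p v then x.1 ⟨v, h⟩ else 0) = _
      rw [← Finset.sum_subset (Finset.subset_univ (Finset.univ.filter p))]
      · rw [Finset.sum_subtype (Finset.univ.filter p) (p := p) (by simp)]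
        exact Finset.sum_congr rfl fun u _ => hval u
      · intro v _ hv
        rw [Finset.mem_filter, not_and] at hv
        rw [dif_neg (hv (Finset.mem_univ v))]
    · intro v hv
      have hv' : v ∈ supp _ := hv
      rw [mem_supp] at hv'
      by_contra hpv
      exact hv' (dif_neg hpv)
    · intro u hu v hv _
      have hu' : u ∈ supp _ := hu
      have hv' : v ∈ supp _ := hv
      rw [mem_supp] at hu' hv'
      by_cases h1 : p u
      · by_cases h2 : p v
        · rw [dif_pos h1] at hu'
          rw [dif_pos h2] at hv'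
          exact hx.2.2 _ _ hu' hv'
        · exact absurd (dif_neg h2) hv'
      · exact absurd (dif_neg h1) hu'⟩
  invFun y := ⟨fun u => y.1 u.1, by
    have hy := y.2
    refine ⟨fun u => hy.1 _, ?_, ?_⟩
    · refine Eq.trans ?_ hy.2.1
      rw [← Finset.sum_subset (Finset.subset_univ (Finset.univ.filter p))]
      · rw [Finset.sum_subtype (Finset.univ.filter p) (p := p) (by simp)]
      · intro v _ hv
        rw [Finset.mem_filter, not_and] at hv
        by_contra hne
        exact hv (Finset.mem_univ v) (hy.2.2.1 (mem_supp.2 hne))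
    · intro u v hu hv
      by_cases huv : u = v
      · left; rw [huv]
      · exact hy.2.2.2 (mem_supp.2 hu) (mem_supp.2 hv) fun h => huv (Subtype.ext h)⟩
  left_inv x := by
    apply Subtype.ext
    ext u
    show (if h : p u.1 then x.1 ⟨u.1, h⟩ else 0) = x.1 u
    rw [dif_pos u.2]
  right_inv y := by
    apply Subtype.ext
    ext v
    show (if h : p v then y.1 v else 0) = y.1 v
    split_ifs with h
    · rfl
    · by_contra hne
      exact h (y.2.2.2.1 (mem_supp.2 (Ne.symm hne)))
  continuous_toFun := by
    refine Continuous.subtype_mk (continuous_pi fun v => ?_) _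
    by_cases h : p v
    · simp only [h, dif_pos]
      exact (continuous_apply _).comp continuous_subtype_val
    · simp only [h, dif_neg, not_false_eq_true]
      exact continuous_const
  continuous_invFun := by
    refine Continuous.subtype_mk (continuous_pi fun u => ?_) _
    exact (continuous_apply _).comp continuous_subtype_val

/-- For `k ≥ 3` the order complex of the proper part of `Π_{2k+1,≠k}` is homotopy equivalent to a
wedge of `(2k-3)`-spheres. -/
theorem main {k : ℕ} (hk : 3 ≤ k) :
    ∃ N, 1 ≤ N ∧ Nonempty (OrderComplex (PartNe (2 * k + 1) k) ≃ₕ SphereWedge N (2 * k - 3)) := by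
  classical
  have instF : Finite (Setoid (Fin (2 * k + 1))) := instFiniteSetoid _
  have instF' : Fintype (Setoid (Fin (2 * k + 1))) := Fintype.ofFinite _
  let x0 : Fin (2 * k + 1) := 0
  have hcard : ({x0} : Set (Fin (2 * k + 1))).ncard = 1 := Set.ncard_singleton _
  obtain ⟨N, hN, hB⟩ := built_U hk rfl (k - 2) {x0} ⟨x0, rfl⟩ (by omega)
  have hB' : Built ((2 * k - 3) + 1) N (chains (U k ({x0} : Set (Fin (2 * k + 1))))) :=
    hB.cast (by omega) rfl rfl
  obtain ⟨e⟩ := hB'.wedge (by omega) hN
  have hsg : sg ({x0} : Set (Fin (2 * k + 1))) = ⊥ := by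
    apply le_antisymm
    · apply sg_le
      rintro x rfl y rfl
      exact Setoid.refl' _ _
    · exact bot_le
  have hU : U k ({x0} : Set (Fin (2 * k + 1))) =
      {r : Setoid (Fin (2 * k + 1)) | r ≠ ⊥ ∧ r ≠ ⊤ ∧ ∀ x, {y | r x y}.ncard ≠ k} := by
    ext r
    show (sg {x0} < r ∧ r < ⊤ ∧ NoK k r) ↔ _
    rw [hsg, bot_lt_iff_ne_bot, lt_top_iff_ne_top]
    rfl
  rw [hU] at e
  exact ⟨N, hN, ⟨(orderComplexHomeo (V := Setoid (Fin (2 * k + 1))) _).toHomotopyEquiv.trans e⟩⟩

end Pool.Agent.Lib.MP_53e7c4_co
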